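import Pool.Agent.Lib.MP_4f6fd6_an.Duality

/-!
# The parameters and the arcs
-/

open MeasureTheory AddCircle Filter
open scoped ENNReal InnerProductSpace Topology

noncomputable section

namespace Pool.Agent.MP_4f6fd6_an

/-- the distances to the circle of the zeros -/
def dd (n : ℕ) : ℝ := (1 / 4) ^ ((n + 2) ^ 2)

theorem dd_pos (n : ℕ) : 0 < dd n := by unfold dd; positivity

theorem dd_le (n : ℕ) : dd n ≤ 1 / 256 := by
  unfold dd
  calc (1 / 4 : ℝ) ^ ((n + 2) ^ 2) ≤ (1 / 4) ^ 4 := by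
        apply pow_le_pow_of_le_one (by norm_num) (by norm_num)
        exact Nat.pow_le_pow_left (by omega : 2 ≤ n + 2) 2
    _ = 1 / 256 := by norm_num

theorem dd_le_pow (n : ℕ) : dd n ≤ (1 / 4) ^ n := by
  unfold dd
  apply pow_le_pow_of_le_one (by norm_num) (by norm_num)
  nlinarith

theorem dd_ratio {i j : ℕ} (h : i < j) : dd j ≤ (1 / 4) ^ i * (1 / 4) ^ j * dd i := by
  unfold dd
  rw [← pow_add, ← pow_add]
  apply pow_le_pow_of_le_one (by norm_num) (by norm_num)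
  obtain ⟨k, rfl⟩ := Nat.exists_eq_add_of_lt h
  nlinarith

/-- the zeros `1 - dd n` -/
def pn (n : ℕ) : Par := ⟨1 - dd n, by linarith [dd_le n], by linarith [dd_pos n]⟩

theorem pn_w (n : ℕ) : (pn n).w = 1 - dd n := rfl

theorem bla_pn : Bla pn := by
  unfold Bla
  simp only [pn_w, sub_sub_cancel]
  exact Summable.of_nonneg_of_le (fun n => (dd_pos n).le) dd_le_pow
    (summable_geometric_of_lt_one (by norm_num) (by norm_num))

/-- the arcs `{exp (i x) : dd n < x < 5 dd n}` -/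
def En (n : ℕ) : Set TT := Metric.ball (ang (3 * dd n)) (2 * dd n / (2 * Real.pi))

theorem isOpen_En (n : ℕ) : IsOpen (En n) := Metric.isOpen_ball

theorem exists_rep' {c : ℝ} {t : TT} : ∃ x : ℝ, |x - c| = dist t (c : TT) ∧ (x : TT) = t := by
  obtain ⟨s, hs⟩ : ∃ s : ℝ, (s : TT) = t - (c : TT) := QuotientAddGroup.mk_surjective _
  refine ⟨c + (s - round ((1 : ℝ)⁻¹ * s) * 1), ?_, ?_⟩
  · rw [add_sub_cancel_left, ← AddCircle.norm_eq, hs, dist_eq_norm]
  · have : ((round ((1 : ℝ)⁻¹ * s) * 1 : ℝ) : TT) = 0 := by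
      rw [AddCircle.coe_eq_zero_iff]
      exact ⟨round ((1 : ℝ)⁻¹ * s), by simp⟩
    rw [AddCircle.coe_add, AddCircle.coe_sub, this, hs]
    abel

theorem exists_rep {c : ℝ} {t : TT} :
    ∃ x : ℝ, |x - c| = 2 * Real.pi * dist t (ang c) ∧ ang x = t := by
  obtain ⟨y, h1, h2⟩ := exists_rep' (c := c / (2 * Real.pi)) (t := t)
  have hpi : 0 < 2 * Real.pi := Real.two_pi_pos
  refine ⟨2 * Real.pi * y, ?_, ?_⟩
  · rw [ang, ← h1, ← abs_of_pos hpi, ← abs_mul, abs_of_pos hpi]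
    congr 1
    field_simp
  · rw [ang, mul_div_cancel_left₀ _ hpi.ne', h2]

theorem dist_coe_le (x c : ℝ) : 2 * Real.pi * dist (ang x) (ang c) ≤ |x - c| := by
  have hpi : 0 < 2 * Real.pi := Real.two_pi_pos
  have h1 : dist (ang x) (ang c) ≤ |x / (2 * Real.pi) - c / (2 * Real.pi)| := by
    rw [ang, ang, dist_eq_norm, ← AddCircle.coe_sub]
    exact QuotientAddGroup.norm_mk_le_norm
  rw [← sub_div, abs_div, abs_of_pos hpi, le_div_iff₀ hpi] at h1
  linarith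

theorem normSq_den (w x : ℝ) :
    ‖1 - (w : ℂ) * zf (ang x)‖ ^ 2 = (1 - w) ^ 2 + 2 * w * (1 - Real.cos x) := by
  rw [zf_ang, ← Complex.normSq_eq_norm_sq, Complex.exp_mul_I, Complex.normSq_apply]
  have h := Real.sin_sq_add_cos_sq x
  simp only [← Complex.ofReal_cos, ← Complex.ofReal_sin, Complex.sub_re, Complex.sub_im,
    Complex.one_re, Complex.one_im, Complex.mul_re, Complex.mul_im, Complex.add_re,
    Complex.add_im, Complex.ofReal_re, Complex.ofReal_im, Complex.I_re, Complex.I_im]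
  linear_combination (w ^ 2) * h

theorem den_le {w x : ℝ} (hw : 0 ≤ w) (hw1 : w ≤ 1) :
    ‖1 - (w : ℂ) * zf (ang x)‖ ^ 2 ≤ (1 - w) ^ 2 + x ^ 2 := by
  rw [normSq_den]
  have h := Real.one_sub_sq_div_two_le_cos (x := x)
  nlinarith [sq_nonneg x, mul_nonneg hw (sq_nonneg x)]

theorem le_den {w x : ℝ} (hw : 255 / 256 ≤ w) (hx : |x| ≤ Real.pi) :
    (1 - w) ^ 2 + (2 / 5) * x ^ 2 ≤ ‖1 - (w : ℂ) * zf (ang x)‖ ^ 2 := by
  rw [normSq_den]
  have h := Real.cos_le_one_sub_mul_cos_sq hx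
  have hpi : Real.pi < 3.1416 := Real.pi_lt_d4
  have hpi0 : 0 < Real.pi := Real.pi_pos
  have h2 : (0.2025 : ℝ) ≤ 2 / Real.pi ^ 2 := by
    rw [le_div_iff₀ (by positivity)]
    nlinarith
  have h3 : 0.2025 * x ^ 2 ≤ 1 - Real.cos x := by
    have := mul_le_mul_of_nonneg_right h2 (sq_nonneg x)
    linarith
  have h4 : 0 ≤ 1 - Real.cos x := by linarith [Real.cos_le_one x]
  nlinarith [sq_nonneg x]

/-- the measure of closed balls. -/
theorem real_closedBall (x : TT) {ε : ℝ} (hε : 0 ≤ ε) (hε1 : ε ≤ 1 / 2) :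
    m.real (Metric.closedBall x ε) = 2 * ε := by
  have h1 := AddCircle.volume_closedBall (T := (1 : ℝ)) (x := x) ε
  have h3 := AddCircle.volume_eq_smul_haarAddCircle (T := (1 : ℝ))
  rw [min_eq_right (by linarith), h3, Measure.smul_apply, smul_eq_mul] at h1
  have h5 := congrArg ENNReal.toReal h1
  rw [ENNReal.toReal_mul, ENNReal.toReal_ofReal zero_le_one,
    ENNReal.toReal_ofReal (by positivity), one_mul] at h5
  exact h5

theorem real_En_le (n : ℕ) : m.real (En n) ≤ dd n := by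
  have h0 := dd_pos n
  have h1 := dd_le n
  have hpi : 3 < Real.pi := Real.pi_gt_three
  have h2 : m.real (En n) ≤
      m.real (Metric.closedBall (ang (3 * dd n)) (2 * dd n / (2 * Real.pi))) :=
    measureReal_mono Metric.ball_subset_closedBall
  have h3 : 2 * dd n / (2 * Real.pi) ≤ dd n / 3 := by
    rw [div_le_div_iff₀ (by positivity) (by norm_num)]
    nlinarith
  rw [real_closedBall _ (by positivity) (by linarith)] at h2
  linarith

/-- the left part of the arc -/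
def An (n : ℕ) : Set TT := Metric.closedBall (ang (3 / 2 * dd n)) (dd n / 4 / (2 * Real.pi))

/-- the right part of the arc -/
def Bn (n : ℕ) : Set TT := Metric.closedBall (ang (9 / 2 * dd n)) (dd n / 4 / (2 * Real.pi))

theorem quarter_le (n : ℕ) : dd n / 4 / (2 * Real.pi) ≤ 1 / 2 := by
  have h0 := dd_pos n
  have h1 := dd_le n
  have hpi : 3 < Real.pi := Real.pi_gt_three
  rw [div_le_iff₀ (by positivity)]
  nlinarith

theorem le_quarter (n : ℕ) : dd n / 13 ≤ 2 * (dd n / 4 / (2 * Real.pi)) := by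
  have h0 := dd_pos n
  have hpi : Real.pi < 3.1416 := Real.pi_lt_d4
  rw [← mul_div_assoc, div_le_div_iff₀ (by norm_num) (by positivity)]
  nlinarith

theorem real_An (n : ℕ) : dd n / 13 ≤ m.real (An n) := by
  have h0 := dd_pos n
  rw [An, real_closedBall _ (by positivity) (quarter_le n)]
  exact le_quarter n

theorem real_Bn (n : ℕ) : dd n / 13 ≤ m.real (Bn n) := by
  have h0 := dd_pos n
  rw [Bn, real_closedBall _ (by positivity) (quarter_le n)]
  exact le_quarter n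

theorem mem_An {n : ℕ} {t : TT} (h : t ∈ An n) :
    ∃ x : ℝ, 5 / 4 * dd n ≤ x ∧ x ≤ 7 / 4 * dd n ∧ ang x = t := by
  obtain ⟨x, hx1, hx2⟩ := exists_rep (c := 3 / 2 * dd n) (t := t)
  rw [An, Metric.mem_closedBall, le_div_iff₀' Real.two_pi_pos, ← hx1, abs_le] at h
  exact ⟨x, by linarith [h.1], by linarith [h.2], hx2⟩

theorem mem_Bn {n : ℕ} {t : TT} (h : t ∈ Bn n) :
    ∃ x : ℝ, 17 / 4 * dd n ≤ x ∧ x ≤ 19 / 4 * dd n ∧ ang x = t := by
  obtain ⟨x, hx1, hx2⟩ := exists_rep (c := 9 / 2 * dd n) (t := t)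
  rw [Bn, Metric.mem_closedBall, le_div_iff₀' Real.two_pi_pos, ← hx1, abs_le] at h
  exact ⟨x, by linarith [h.1], by linarith [h.2], hx2⟩

theorem mem_En {n : ℕ} {t : TT} (h : t ∈ En n) :
    ∃ x : ℝ, dd n < x ∧ x < 5 * dd n ∧ ang x = t := by
  obtain ⟨x, hx1, hx2⟩ := exists_rep (c := 3 * dd n) (t := t)
  rw [En, Metric.mem_ball, lt_div_iff₀' Real.two_pi_pos, ← hx1, abs_lt] at h
  exact ⟨x, by linarith [h.1], by linarith [h.2], hx2⟩

theorem coe_mem_En {n : ℕ} {x : ℝ} (h1 : dd n < x) (h2 : x < 5 * dd n) : ang x ∈ En n := by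
  rw [En, Metric.mem_ball, lt_div_iff₀' Real.two_pi_pos]
  refine lt_of_le_of_lt (dist_coe_le _ _) ?_
  rw [abs_lt]; constructor <;> linarith

theorem An_subset (n : ℕ) : An n ⊆ En n := by
  intro t ht
  obtain ⟨x, h1, h2, rfl⟩ := mem_An ht
  have := dd_pos n
  exact coe_mem_En (by linarith) (by linarith)

theorem Bn_subset (n : ℕ) : Bn n ⊆ En n := by
  intro t ht
  obtain ⟨x, h1, h2, rfl⟩ := mem_Bn ht
  have := dd_pos n
  exact coe_mem_En (by linarith) (by linarith)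

theorem norm_kf_sq (p : Par) (t : TT) : ‖kf p t‖ ^ 2 = (‖1 - (p.w : ℂ) * zf t‖ ^ 2)⁻¹ := by
  rw [kf, norm_inv, inv_pow]

/-- on the arc, the other kernels of smaller index -/
theorem kf_small {j : ℕ} (t : TT) : ‖kf (pn j) t‖ ^ 2 ≤ 1 / (dd j) ^ 2 := by
  have h := norm_kf_le (pn j) t
  have h2 : (1 - (pn j).w)⁻¹ = 1 / dd j := by rw [pn_w]; simp
  rw [h2] at h
  have := pow_le_pow_left₀ (norm_nonneg _) h 2
  rwa [div_pow, one_pow] at this

theorem kf_large {n : ℕ} (j : ℕ) {t : TT} (ht : t ∈ En n) :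
    ‖kf (pn j) t‖ ^ 2 ≤ 5 / 2 / (dd n) ^ 2 := by
  obtain ⟨x, h1, h2, rfl⟩ := mem_En ht
  have h0 := dd_pos n
  have h3 := dd_le n
  have hx : |x| ≤ Real.pi := by
    rw [abs_of_pos (by linarith)]
    have := Real.pi_gt_three
    linarith
  have h4 := le_den (w := (pn j).w) (x := x) (by rw [pn_w]; linarith [dd_le j]) hx
  rw [norm_kf_sq]
  have h5 : (2 / 5) * (dd n) ^ 2 ≤ ‖1 - ((pn j).w : ℂ) * zf (ang x)‖ ^ 2 := by
    have : (dd n) ^ 2 ≤ x ^ 2 := pow_le_pow_left₀ h0.le h1.le 2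
    nlinarith [sq_nonneg (1 - (pn j).w)]
  calc (‖1 - ((pn j).w : ℂ) * zf (ang x)‖ ^ 2)⁻¹ ≤ ((2 / 5) * (dd n) ^ 2)⁻¹ :=
        inv_anti₀ (by positivity) h5
    _ = 5 / 2 / (dd n) ^ 2 := by field_simp

theorem kf_ge_An {n : ℕ} {t : TT} (ht : t ∈ An n) : 1 / 5 / (dd n) ^ 2 ≤ ‖kf (pn n) t‖ ^ 2 := by
  obtain ⟨x, h1, h2, rfl⟩ := mem_An ht
  have h0 := dd_pos n
  have h3 := dd_le n
  have h4 := den_le (w := (pn n).w) (x := x) (pn n).nonneg (pn n).lt_one.le
  rw [norm_kf_sq]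
  have h5 : ‖1 - ((pn n).w : ℂ) * zf (ang x)‖ ^ 2 ≤ 5 * (dd n) ^ 2 := by
    rw [pn_w] at h4 ⊢
    nlinarith
  have h6 : 0 < ‖1 - ((pn n).w : ℂ) * zf (ang x)‖ ^ 2 :=
    pow_pos (norm_pos_iff.2 ((pn n).one_sub_ne _)) 2
  calc 1 / 5 / (dd n) ^ 2 = (5 * (dd n) ^ 2)⁻¹ := by field_simp
    _ ≤ _ := inv_anti₀ h6 h5

theorem kf_le_Bn {n : ℕ} {t : TT} (ht : t ∈ Bn n) : ‖kf (pn n) t‖ ^ 2 ≤ 1 / 8 / (dd n) ^ 2 := by
  obtain ⟨x, h1, h2, rfl⟩ := mem_Bn ht
  have h0 := dd_pos n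
  have h3 := dd_le n
  have hx : |x| ≤ Real.pi := by
    rw [abs_of_pos (by linarith)]
    have := Real.pi_gt_three
    linarith
  have h4 := le_den (w := (pn n).w) (x := x) (by rw [pn_w]; linarith) hx
  rw [norm_kf_sq]
  have h5 : 8 * (dd n) ^ 2 ≤ ‖1 - ((pn n).w : ℂ) * zf (ang x)‖ ^ 2 := by
    rw [pn_w] at h4 ⊢
    nlinarith
  calc (‖1 - ((pn n).w : ℂ) * zf (ang x)‖ ^ 2)⁻¹ ≤ (8 * (dd n) ^ 2)⁻¹ :=
        inv_anti₀ (by positivity) h5
    _ = 1 / 8 / (dd n) ^ 2 := by field_simp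

theorem kf_ge_En {n : ℕ} {t : TT} (ht : t ∈ En n) : 1 / 36 / (dd n) ^ 2 ≤ ‖kf (pn n) t‖ ^ 2 := by
  obtain ⟨x, h1, h2, rfl⟩ := mem_En ht
  have h0 := dd_pos n
  have h3 := dd_le n
  have h4 := den_le (w := (pn n).w) (x := x) (pn n).nonneg (pn n).lt_one.le
  rw [norm_kf_sq]
  have h5 : ‖1 - ((pn n).w : ℂ) * zf (ang x)‖ ^ 2 ≤ 36 * (dd n) ^ 2 := by
    rw [pn_w] at h4 ⊢
    nlinarith
  have h6 : 0 < ‖1 - ((pn n).w : ℂ) * zf (ang x)‖ ^ 2 :=
    pow_pos (norm_pos_iff.2 ((pn n).one_sub_ne _)) 2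
  calc 1 / 36 / (dd n) ^ 2 = (36 * (dd n) ^ 2)⁻¹ := by field_simp
    _ ≤ _ := inv_anti₀ h6 h5

theorem norm_one_sub_zf {n : ℕ} {t : TT} (ht : t ∈ En n) : ‖1 - zf t‖ ≤ 5 * dd n := by
  obtain ⟨x, h1, h2, rfl⟩ := mem_En ht
  have h0 := dd_pos n
  have h4 := den_le (w := 1) (x := x) zero_le_one le_rfl
  rw [Complex.ofReal_one, one_mul] at h4
  have h5 : ‖1 - zf (ang x)‖ ^ 2 ≤ (5 * dd n) ^ 2 := by nlinarith
  exact le_of_sq_le_sq h5 (by positivity)

/-- the defect bounds for the individual factors -/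
def etan (n j : ℕ) : ℝ := 10 * (1 / 4) ^ n * (1 / 4) ^ j

theorem etan_nonneg (n j : ℕ) : 0 ≤ etan n j := by unfold etan; positivity

theorem summable_etan (n : ℕ) : Summable (etan n) :=
  (summable_geometric_of_lt_one (by norm_num) (by norm_num)).mul_left _

theorem tsum_etan (n : ℕ) : ∑' j, etan n j = 40 / 3 * (1 / 4) ^ n := by
  unfold etan
  rw [tsum_mul_left, tsum_geometric_of_lt_one (by norm_num) (by norm_num)]
  ring

theorem DefLe.mono {φ : Sym} {E : Set TT} {hE : MeasurableSet E} {η₁ η₂ : ℝ}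
    (h : DefLe φ E hE η₁) (h2 : η₁ ≤ η₂) : DefLe φ E hE η₂ := fun ψ hψ =>
  (h ψ hψ).trans (mul_le_mul_of_nonneg_right h2 (sq_nonneg _))

theorem DefLe_factor {n j : ℕ} (hj : j ≠ n) :
    DefLe (blS (pn j)) (En n) (isOpen_En n).measurableSet (etan n j) := by
  have h0 := dd_pos n
  have h0j := dd_pos j
  have hm := real_En_le n
  have hm0 : 0 ≤ m.real (En n) := measureReal_nonneg
  have h2 : 1 - (pn j).w ^ 2 ≤ 2 * dd j := by
    rw [pn_w]; nlinarith
  have h20 : 0 ≤ 1 - (pn j).w ^ 2 := by nlinarith [(pn j).nonneg, (pn j).lt_one]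
  rcases lt_or_gt_of_ne hj with h | h
  · -- j < n
    apply (DefLe_blS (pn j) (isOpen_En n).measurableSet
      (fun t _ => kf_small (j := j) t)).mono
    have h3 := dd_ratio h
    calc 1 / dd j ^ 2 * m.real (En n) * (1 - (pn j).w ^ 2)
        ≤ 1 / dd j ^ 2 * dd n * (2 * dd j) := by gcongr
      _ = 2 * (dd n / dd j) := by field_simp
      _ ≤ 2 * ((1 / 4) ^ j * (1 / 4) ^ n) := by
          gcongr
          rw [div_le_iff₀ h0j]; exact h3
      _ ≤ etan n j := by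
          unfold etan
          have : (0:ℝ) ≤ (1 / 4) ^ j * (1 / 4) ^ n := by positivity
          nlinarith
  · apply (DefLe_blS (pn j) (isOpen_En n).measurableSet (fun t ht => kf_large j ht)).mono
    have h3 := dd_ratio h
    calc 5 / 2 / dd n ^ 2 * m.real (En n) * (1 - (pn j).w ^ 2)
        ≤ 5 / 2 / dd n ^ 2 * dd n * (2 * dd j) := by gcongr
      _ = 5 * (dd j / dd n) := by field_simp
      _ ≤ 5 * ((1 / 4) ^ n * (1 / 4) ^ j) := by
          gcongr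
          rw [div_le_iff₀ h0]; exact h3
      _ ≤ etan n j := by
          unfold etan
          have : (0:ℝ) ≤ (1 / 4) ^ n * (1 / 4) ^ j := by positivity
          nlinarith

/-- the cofactor of the `n`-th Blaschke factor. -/
def cS (n : ℕ) : Sym := uS * IS bla_pn {n}ᶜ

theorem cS_anal (n : ℕ) : (cS n).Anal := uS_anal.mul (IS_anal _ _)

theorem DefLe_cS (n : ℕ) :
    DefLe (cS n) (En n) (isOpen_En n).measurableSet (20 * (1 / 4) ^ n) := by
  have h1 := DefLe_IS bla_pn {n}ᶜ (isOpen_En n).measurableSet (etan_nonneg n) (summable_etan n)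
    (fun j hj => DefLe_factor (by simpa using hj))
  have h2 := DefLe_uS (isOpen_En n).measurableSet (fun t ht => norm_one_sub_zf (n := n) ht)
  have h3 : 0 ≤ ∑' j, etan n j := tsum_nonneg (etan_nonneg n)
  apply (h2.mul h1 h3).mono
  rw [tsum_etan]
  have h4 := real_En_le n
  have h5 := dd_le_pow n
  have h6 := dd_le n
  have h7 := dd_pos n
  have h8 : (0:ℝ) < (1 / 4) ^ n := by positivity
  nlinarith

/-- the symbol `b = u I`. -/
def bS : Sym := uS * IS bla_pn Set.univ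

theorem bS_split (n : ℕ) : (bS : TT → ℂ) =ᵐ[m] (blS (pn n) * cS n) := by
  filter_upwards [IS_split bla_pn n] with t ht
  change uS t * IS bla_pn Set.univ t = bl (pn n) t * (uS t * IS bla_pn {n}ᶜ t)
  rw [ht]
  change uS t * (bl (pn n) t * IS bla_pn {n}ᶜ t) = _
  ring

end Pool.Agent.MP_4f6fd6_an
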