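import Pool.Agent.Lib.MP_4f6fd6_an.Defs

/-!
# Multiplication operators by bounded symbols
-/

open MeasureTheory AddCircle
open scoped ENNReal InnerProductSpace

noncomputable section

namespace Pool.Agent.MP_4f6fd6_an

/-- A symbol: a measurable function on the circle bounded by `1` almost everywhere. -/
structure Sym where
  /-- the underlying function -/
  toFun : TT → ℂ
  meas : AEStronglyMeasurable toFun m
  bound : ∀ᵐ t ∂m, ‖toFun t‖ ≤ 1

namespace Sym

instance : CoeFun Sym (fun _ => TT → ℂ) := ⟨Sym.toFun⟩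

/-- the symbol as an element of `L^∞`. -/
def inf (φ : Sym) : Linf := (memLp_top_of_bound φ.meas 1 φ.bound).toLp φ.toFun

theorem coe_inf (φ : Sym) : (φ.inf : TT → ℂ) =ᵐ[m] φ := MemLp.coeFn_toLp _

/-- multiplication by the symbol. -/
def op (φ : Sym) : L2 →L[ℂ] L2 := mulOp φ.inf

end Sym

theorem coe_mulOp (φ : Linf) (f : L2) : (mulOp φ f : TT → ℂ) =ᵐ[m] fun t => φ t * f t := by
  have := (ContinuousLinearMap.mul ℂ ℂ).coeFn_holder (r := 2) φ f
  simpa [mulOp] using this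

namespace Sym

theorem coe_op (φ : Sym) (f : L2) : (φ.op f : TT → ℂ) =ᵐ[m] fun t => φ t * f t := by
  filter_upwards [coe_mulOp φ.inf f, φ.coe_inf] with t h1 h2
  rw [op, h1, h2]

/-- conjugate symbol -/
def bar (φ : Sym) : Sym where
  toFun := fun t => starRingEnd ℂ (φ t)
  meas := by
    exact Complex.continuous_conj.comp_aestronglyMeasurable φ.meas
  bound := by
    filter_upwards [φ.bound] with t ht
    simpa using ht

theorem bar_apply (φ : Sym) (t : TT) : φ.bar t = starRingEnd ℂ (φ t) := rfl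

/-- product of symbols -/
instance : Mul Sym := ⟨fun φ χ =>
  { toFun := fun t => φ t * χ t
    meas := φ.meas.mul χ.meas
    bound := by
      filter_upwards [φ.bound, χ.bound] with t h1 h2
      rw [norm_mul]
      exact mul_le_one₀ h1 (norm_nonneg _) h2 }⟩

theorem mul_apply (φ χ : Sym) (t : TT) : (φ * χ) t = φ t * χ t := rfl

theorem op_ext {φ χ : Sym} (h : (φ : TT → ℂ) =ᵐ[m] χ) : φ.op = χ.op := by
  have : φ.inf = χ.inf := by
    apply Lp.ext
    filter_upwards [φ.coe_inf, χ.coe_inf, h] with t h1 h2 h3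
    rw [h1, h2, h3]
  rw [op, op, this]

theorem op_mul (φ χ : Sym) (f : L2) : (φ * χ).op f = φ.op (χ.op f) := by
  apply Lp.ext
  filter_upwards [(φ * χ).coe_op f, φ.coe_op (χ.op f), χ.coe_op f] with t h1 h2 h3
  rw [h1, h2, h3, mul_apply, mul_assoc]

theorem op_comm (φ χ : Sym) (f : L2) : φ.op (χ.op f) = χ.op (φ.op f) := by
  rw [← op_mul, ← op_mul]
  congr 1
  apply op_ext
  filter_upwards with t
  rw [mul_apply, mul_apply, mul_comm]

theorem norm_sq_eq (f : L2) : ‖f‖ ^ 2 = ∫ t, ‖f t‖ ^ 2 ∂m := by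
  have h := L2.inner_def (𝕜 := ℂ) f f
  have h2 : (⟪f, f⟫_ℂ).re = ‖f‖ ^ 2 := by
    rw [← inner_self_eq_norm_sq (𝕜 := ℂ)]; rfl
  rw [← h2, h]
  have h3 : ∀ t, ⟪f t, f t⟫_ℂ = ((‖f t‖ ^ 2 : ℝ) : ℂ) := by
    intro t
    rw [inner_self_eq_norm_sq_to_K]
    norm_cast
  simp_rw [h3]
  have h4 := integral_ofReal (μ := m) (𝕜 := ℂ) (f := fun t => ‖f t‖ ^ 2)
  rw [show (∫ t, ((‖f t‖ ^ 2 : ℝ) : ℂ) ∂m) = ((∫ t, ‖f t‖ ^ 2 ∂m : ℝ) : ℂ) from h4]
  exact Complex.ofReal_re _

theorem integrable_norm_sq (f : L2) : Integrable (fun t => ‖f t‖ ^ 2) m := by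
  have := (Lp.memLp f).integrable_norm_rpow (by norm_num) (by norm_num)
  simpa using this

theorem norm_op_le (φ : Sym) (f : L2) : ‖φ.op f‖ ≤ ‖f‖ := by
  apply Lp.norm_le_norm_of_ae_le
  filter_upwards [φ.coe_op f, φ.bound] with t h1 h2
  rw [h1, norm_mul]
  exact mul_le_of_le_one_left (norm_nonneg _) h2

theorem inner_op (φ : Sym) (f g : L2) : ⟪φ.op f, g⟫_ℂ = ⟪f, φ.bar.op g⟫_ℂ := by
  rw [L2.inner_def, L2.inner_def]
  apply integral_congr_ae
  filter_upwards [φ.coe_op f, φ.bar.coe_op g] with t h1 h2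
  rw [h1, h2, bar_apply]
  simp only [RCLike.inner_apply, map_mul]
  ring

theorem inner_op' (φ : Sym) (f g : L2) : ⟪φ.bar.op f, g⟫_ℂ = ⟪f, φ.op g⟫_ℂ := by
  rw [← inner_conj_symm, ← inner_op, inner_conj_symm]

/-- Unimodular symbols. -/
def Unimod (φ : Sym) : Prop := ∀ᵐ t ∂m, ‖φ t‖ = 1

theorem Unimod.bar_op_op {φ : Sym} (h : φ.Unimod) (f : L2) : φ.bar.op (φ.op f) = f := by
  apply Lp.ext
  filter_upwards [φ.bar.coe_op (φ.op f), φ.coe_op f, h] with t h1 h2 h3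
  rw [h1, h2, bar_apply, ← mul_assoc, Complex.conj_mul', h3]
  simp

theorem Unimod.op_bar_op {φ : Sym} (h : φ.Unimod) (f : L2) : φ.op (φ.bar.op f) = f := by
  rw [op_comm, h.bar_op_op]

theorem Unimod.norm_op {φ : Sym} (h : φ.Unimod) (f : L2) : ‖φ.op f‖ = ‖f‖ := by
  apply le_antisymm (norm_op_le φ f)
  conv_lhs => rw [← h.bar_op_op f]
  exact norm_op_le _ _

theorem Unimod.bar {φ : Sym} (h : φ.Unimod) : φ.bar.Unimod := by
  filter_upwards [h] with t ht
  simpa [bar_apply] using ht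

theorem Unimod.mul {φ χ : Sym} (h : φ.Unimod) (h' : χ.Unimod) : (φ * χ).Unimod := by
  filter_upwards [h, h'] with t h1 h2
  rw [mul_apply, norm_mul, h1, h2, one_mul]

/-- analytic symbols (multipliers of `H²`). -/
def Anal (φ : Sym) : Prop := ∀ f ∈ H2, φ.op f ∈ H2

theorem Anal.mul {φ χ : Sym} (h : φ.Anal) (h' : χ.Anal) : (φ * χ).Anal := by
  intro f hf
  rw [op_mul]
  exact h _ (h' _ hf)

end Sym

/-- the projection of `L²` onto `H²`. -/
abbrev P : L2 →L[ℂ] L2 := H2.starProjection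

theorem P_mem (f : L2) : P f ∈ H2 := Submodule.starProjection_apply_mem _ _

theorem P_eq_self {f : L2} (h : f ∈ H2) : P f = f :=
  Submodule.starProjection_eq_self_iff.2 h

theorem inner_P_of_mem {f g : L2} (hg : g ∈ H2) : ⟪P f, g⟫_ℂ = ⟪f, g⟫_ℂ := by
  rw [Submodule.inner_starProjection_left_eq_right, P_eq_self hg]

theorem norm_P_le (f : L2) : ‖P f‖ ≤ ‖f‖ := Submodule.norm_starProjection_apply_le _ _

theorem P_eq_zero_iff {f : L2} : P f = 0 ↔ ∀ g ∈ H2, ⟪f, g⟫_ℂ = 0 := by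
  constructor
  · intro h g hg
    rw [← inner_P_of_mem hg, h, inner_zero_left]
  · intro h
    have := h (P f) (P_mem f)
    rw [← inner_P_of_mem (P_mem f), inner_self_eq_zero] at this
    exact this

/-- For an analytic symbol, `P (φ̄ (P ψ)) = P (φ̄ ψ)`. -/
theorem Sym.Anal.P_bar_P {φ : Sym} (h : φ.Anal) (ψ : L2) :
    P (φ.bar.op (P ψ)) = P (φ.bar.op ψ) := by
  rw [← sub_eq_zero, ← map_sub, P_eq_zero_iff]
  intro g hg
  rw [← map_sub, Sym.inner_op', inner_sub_left, inner_P_of_mem (h g hg), sub_self]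

theorem coe_star_inf (φ : Sym) : star φ.inf = φ.bar.inf := by
  apply Lp.ext
  filter_upwards [Lp.coeFn_star φ.inf, φ.coe_inf, φ.bar.coe_inf] with t h1 h2 h3
  rw [h1, h3, Pi.star_apply, h2]
  rfl

/-- the Toeplitz operator, as an element of `L²`. -/
theorem coe_toeplitz (φ : Sym) (g : H2) : ((toeplitz φ.inf g : H2) : L2) = P (φ.op g) := rfl

theorem coe_toeplitz_star (φ : Sym) (g : H2) :
    ((toeplitz (star φ.inf) g : H2) : L2) = P (φ.bar.op g) := by
  rw [coe_star_inf]; rfl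

theorem inner_P_of_mem' {f g : L2} (hg : g ∈ H2) : ⟪g, P f⟫_ℂ = ⟪g, f⟫_ℂ := by
  rw [← inner_conj_symm, inner_P_of_mem hg, inner_conj_symm]

theorem inner_toeplitz (φ : Sym) (f g : H2) :
    ⟪toeplitz φ.inf f, g⟫_ℂ = ⟪f, toeplitz (star φ.inf) g⟫_ℂ := by
  rw [Submodule.coe_inner, Submodule.coe_inner, coe_toeplitz, coe_toeplitz_star,
    inner_P_of_mem g.2, Sym.inner_op, inner_P_of_mem' f.2]

end Pool.Agent.MP_4f6fd6_an
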