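import Pool.Agent.Lib.MP_4f6fd6_an.Basic

/-!
# Fourier coefficients, Blaschke factors and kernels
-/

open MeasureTheory AddCircle Filter
open scoped ENNReal InnerProductSpace Topology

noncomputable section

namespace Pool.Agent.MP_4f6fd6_an

/-- the coordinate function `z = exp (2 π i t)` -/
def zf (t : TT) : ℂ := fourier 1 t

theorem norm_zf (t : TT) : ‖zf t‖ = 1 := by
  rw [zf, fourier_apply]; exact Circle.norm_coe _

theorem continuous_zf : Continuous zf := (fourier 1).continuous

/-- the point of the circle of angle `x` -/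
def ang (x : ℝ) : TT := ((x / (2 * Real.pi) : ℝ) : TT)

theorem zf_ang (x : ℝ) : zf (ang x) = Complex.exp (x * Complex.I) := by
  rw [zf, ang, fourier_coe_apply]
  congr 1
  have : (Real.pi : ℂ) ≠ 0 := by exact_mod_cast Real.pi_ne_zero
  push_cast
  field_simp

/-- the symbol `z`. -/
def zS : Sym where
  toFun := zf
  meas := continuous_zf.aestronglyMeasurable
  bound := by filter_upwards with t; rw [norm_zf]

theorem norm_fourierCoeff_le (f : L2) (n : ℤ) : ‖fourierCoeff f n‖ ≤ ‖f‖ := by
  rw [← fourierBasis_repr, HilbertBasis.repr_apply_apply]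
  refine (norm_inner_le_norm _ _).trans ?_
  have : ‖(fourierBasis n : L2)‖ = 1 := fourierBasis.orthonormal.1 n
  rw [this, one_mul]

theorem integrable_L2 (f : L2) : Integrable f m := (Lp.memLp f).integrable (by norm_num)

theorem fourierCoeff_zS (f : L2) (n : ℤ) :
    fourierCoeff (zS.op f) n = fourierCoeff f (n - 1) := by
  rw [fourierCoeff, fourierCoeff]
  apply integral_congr_ae
  filter_upwards [zS.coe_op f] with t ht
  rw [ht]
  change fourier (-n) t • (fourier 1 t * f t) = _
  rw [smul_eq_mul, smul_eq_mul, ← mul_assoc, ← fourier_add]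
  congr 2
  ring_nf

theorem fourierCoeff_sub' (f g : L2) (n : ℤ) :
    fourierCoeff (f - g : L2) n = fourierCoeff f n - fourierCoeff g n := by
  rw [← fourierBasis_repr, ← fourierBasis_repr, ← fourierBasis_repr]
  simp

theorem fourierCoeff_smul' (c : ℂ) (f : L2) (n : ℤ) :
    fourierCoeff (c • f : L2) n = c * fourierCoeff f n := by
  rw [← fourierBasis_repr, ← fourierBasis_repr]
  simp

theorem ext_fourierCoeff {f g : L2} (h : ∀ n, fourierCoeff f n = fourierCoeff g n) : f = g := by
  apply fourierBasis.repr.injective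
  ext n
  rw [fourierBasis_repr, fourierBasis_repr, h n]

/-- the constant function one -/
def one2 : L2 := fourierLp 2 0

theorem fourierCoeff_one2 (n : ℤ) : fourierCoeff one2 n = if n = 0 then 1 else 0 := by
  rw [← fourierBasis_repr, one2, HilbertBasis.repr_apply_apply, coe_fourierBasis]
  have := orthonormal_iff_ite.1 (orthonormal_fourier (T := (1 : ℝ))) n 0
  rw [this]

theorem coe_one2 : (one2 : TT → ℂ) =ᵐ[m] fun _ => 1 := by
  filter_upwards [coeFn_fourierLp (T := (1 : ℝ)) 2 0] with t ht
  rw [one2, ht]; simp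

theorem one2_mem : one2 ∈ H2 := by
  intro n hn
  rw [fourierCoeff_one2, if_neg hn.ne]

theorem kill_neg {a : ℤ → ℂ} {C w : ℝ} (hw : 0 ≤ w) (hw1 : w < 1) (hC : ∀ n, ‖a n‖ ≤ C)
    (N : ℤ) (h : ∀ n < N, a n = w * a (n - 1)) : ∀ n < N, a n = 0 := by
  intro n hn
  have key : ∀ k : ℕ, ‖a n‖ ≤ w ^ k * C := by
    intro k
    have h2 : a n = w ^ k * a (n - k) := by
      induction k with
      | zero => simp
      | succ k ih =>
        rw [ih, h (n - k) (by omega), pow_succ]
        push_cast
        rw [mul_assoc, ← sub_sub]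
    rw [h2, norm_mul, norm_pow]
    simp only [Complex.norm_real, Real.norm_eq_abs, abs_of_nonneg hw]
    exact mul_le_mul_of_nonneg_left (hC _) (pow_nonneg hw _)
  have lim : Tendsto (fun k : ℕ => w ^ k * C) atTop (𝓝 0) := by
    have := (tendsto_pow_atTop_nhds_zero_of_lt_one hw hw1).mul_const C
    simpa using this
  have := ge_of_tendsto' lim key
  exact norm_le_zero_iff.1 this

theorem kill_pos {a : ℤ → ℂ} {C w : ℝ} (hw : 0 ≤ w) (hw1 : w < 1) (hC : ∀ n, ‖a n‖ ≤ C)
    (N : ℤ) (h : ∀ n > N, a (n - 1) = w * a n) : ∀ n ≥ N, a n = 0 := by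
  intro n hn
  have key : ∀ k : ℕ, ‖a n‖ ≤ w ^ k * C := by
    intro k
    have h2 : a n = w ^ k * a (n + k) := by
      induction k with
      | zero => simp
      | succ k ih =>
        have h3 := h (n + k + 1) (by omega)
        rw [add_sub_cancel_right] at h3
        rw [ih, h3, pow_succ]
        push_cast
        rw [mul_assoc, ← add_assoc]
    rw [h2, norm_mul, norm_pow]
    simp only [Complex.norm_real, Real.norm_eq_abs, abs_of_nonneg hw]
    exact mul_le_mul_of_nonneg_left (hC _) (pow_nonneg hw _)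
  have lim : Tendsto (fun k : ℕ => w ^ k * C) atTop (𝓝 0) := by
    have := (tendsto_pow_atTop_nhds_zero_of_lt_one hw hw1).mul_const C
    simpa using this
  have := ge_of_tendsto' lim key
  exact norm_le_zero_iff.1 this

/-- A parameter in `[0,1)`. -/
structure Par where
  w : ℝ
  nonneg : 0 ≤ w
  lt_one : w < 1

theorem Par.one_sub_ne (p : Par) (t : TT) : 1 - (p.w : ℂ) * zf t ≠ 0 := by
  intro h
  have h1 : (p.w : ℂ) * zf t = 1 := (sub_eq_zero.1 h).symm
  have h2 : ‖(p.w : ℂ) * zf t‖ = 1 := by rw [h1]; simp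
  rw [norm_mul, norm_zf, mul_one, Complex.norm_real, Real.norm_eq_abs,
    abs_of_nonneg p.nonneg] at h2
  exact p.lt_one.ne h2

theorem Par.le_norm (p : Par) (t : TT) : 1 - p.w ≤ ‖1 - (p.w : ℂ) * zf t‖ := by
  have := norm_sub_norm_le (1 : ℂ) ((p.w : ℂ) * zf t)
  rw [norm_mul, norm_zf, mul_one, Complex.norm_real, Real.norm_eq_abs,
    abs_of_nonneg p.nonneg, norm_one] at this
  exact this

/-- the values of a Blaschke factor -/
def bl (p : Par) (t : TT) : ℂ := (p.w - zf t) / (1 - p.w * zf t)

theorem norm_bl (p : Par) (t : TT) : ‖bl p t‖ = 1 := by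
  rw [bl, norm_div]
  have h1 : ‖(p.w : ℂ) - zf t‖ = ‖1 - (p.w : ℂ) * zf t‖ := by
    have h2 : (p.w : ℂ) - zf t = zf t * (p.w * starRingEnd ℂ (zf t) - 1) := by
      have : zf t * starRingEnd ℂ (zf t) = 1 := by
        rw [Complex.mul_conj']; rw [norm_zf]; simp
      linear_combination (-(p.w : ℂ)) * this
    have h3 : (p.w : ℂ) * starRingEnd ℂ (zf t) - 1 = - starRingEnd ℂ (1 - (p.w : ℂ) * zf t) := by
      simp
    rw [h2, norm_mul, norm_zf, one_mul, h3, norm_neg, Complex.norm_conj]
  rw [h1]
  exact div_self (norm_ne_zero_iff.2 (p.one_sub_ne t))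

theorem continuous_bl (p : Par) : Continuous (bl p) := by
  unfold bl
  exact (continuous_const.sub continuous_zf).div₀ (continuous_const.sub
    (continuous_const.mul continuous_zf)) (fun t => p.one_sub_ne t)

/-- The Blaschke factor as a symbol. -/
def blS (p : Par) : Sym where
  toFun := bl p
  meas := (continuous_bl p).aestronglyMeasurable
  bound := by filter_upwards with t; rw [norm_bl]

theorem blS_unimod (p : Par) : (blS p).Unimod := by
  filter_upwards with t; exact norm_bl p t

/-- The relation `(1 - w z) β f = (w - z) f`. -/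
theorem blS_rel (p : Par) (f : L2) :
    (blS p).op f - (p.w : ℂ) • zS.op ((blS p).op f) = (p.w : ℂ) • f - zS.op f := by
  apply Lp.ext
  filter_upwards [Lp.coeFn_sub ((blS p).op f) ((p.w : ℂ) • zS.op ((blS p).op f)),
    Lp.coeFn_smul (p.w : ℂ) (zS.op ((blS p).op f)), zS.coe_op ((blS p).op f),
    (blS p).coe_op f, Lp.coeFn_sub ((p.w : ℂ) • f) (zS.op f), Lp.coeFn_smul (p.w : ℂ) f,
    zS.coe_op f] with t h1 h2 h3 h4 h5 h6 h7
  rw [h1, Pi.sub_apply, h2, Pi.smul_apply, h3, h4, h5, Pi.sub_apply, h6, Pi.smul_apply, h7]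
  change bl p t * f t - (p.w : ℂ) • (zf t * (bl p t * f t)) = (p.w : ℂ) • f t - zf t * f t
  have : bl p t * (1 - p.w * zf t) = p.w - zf t := by
    rw [bl, div_mul_cancel₀ _ (p.one_sub_ne t)]
  simp only [smul_eq_mul]
  linear_combination (f t) * this

theorem blS_coeff (p : Par) (f : L2) (n : ℤ) :
    fourierCoeff ((blS p).op f) n - p.w * fourierCoeff ((blS p).op f) (n - 1) =
      p.w * fourierCoeff f n - fourierCoeff f (n - 1) := by
  have := congrArg (fun g : L2 => fourierCoeff g n) (blS_rel p f)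
  simpa only [fourierCoeff_sub', fourierCoeff_smul', fourierCoeff_zS] using this

theorem blS_anal (p : Par) : (blS p).Anal := by
  intro f hf
  apply kill_neg p.nonneg p.lt_one (norm_fourierCoeff_le _)
  intro n hn
  have h1 := blS_coeff p f n
  rw [hf n hn, hf (n - 1) (by omega)] at h1
  linear_combination h1

theorem zS_anal : zS.Anal := by
  intro f hf n hn
  rw [fourierCoeff_zS]
  exact hf _ (by omega)

/-- the kernel function -/
def kf (p : Par) (t : TT) : ℂ := (1 - p.w * zf t)⁻¹

theorem continuous_kf (p : Par) : Continuous (kf p) := by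
  unfold kf
  exact (continuous_const.sub (continuous_const.mul continuous_zf)).inv₀
    (fun t => p.one_sub_ne t)

theorem norm_kf_le (p : Par) (t : TT) : ‖kf p t‖ ≤ (1 - p.w)⁻¹ := by
  rw [kf, norm_inv]
  exact inv_anti₀ (by linarith [p.lt_one]) (p.le_norm t)

theorem memLp_kf (p : Par) : MemLp (kf p) 2 m :=
  MemLp.of_bound (continuous_kf p).aestronglyMeasurable _ (ae_of_all _ (norm_kf_le p))

/-- the kernel as an element of `L²` -/
def k2 (p : Par) : L2 := (memLp_kf p).toLp

theorem coe_k2 (p : Par) : (k2 p : TT → ℂ) =ᵐ[m] kf p := MemLp.coeFn_toLp _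

theorem k2_rel (p : Par) : k2 p - (p.w : ℂ) • zS.op (k2 p) = one2 := by
  apply Lp.ext
  filter_upwards [Lp.coeFn_sub (k2 p) ((p.w : ℂ) • zS.op (k2 p)),
    Lp.coeFn_smul (p.w : ℂ) (zS.op (k2 p)), zS.coe_op (k2 p), coe_k2 p, coe_one2]
    with t h1 h2 h3 h4 h5
  rw [h1, Pi.sub_apply, h2, Pi.smul_apply, h3, h4, h5]
  change kf p t - (p.w : ℂ) • (zf t * kf p t) = 1
  have : kf p t * (1 - p.w * zf t) = 1 := inv_mul_cancel₀ (p.one_sub_ne t)
  simp only [smul_eq_mul]
  linear_combination this

theorem k2_coeff (p : Par) (n : ℤ) :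
    fourierCoeff (k2 p) n - p.w * fourierCoeff (k2 p) (n - 1) = if n = 0 then 1 else 0 := by
  have := congrArg (fun g : L2 => fourierCoeff g n) (k2_rel p)
  simpa only [fourierCoeff_sub', fourierCoeff_smul', fourierCoeff_zS, fourierCoeff_one2] using this

theorem k2_mem (p : Par) : k2 p ∈ H2 := by
  apply kill_neg p.nonneg p.lt_one (norm_fourierCoeff_le _)
  intro n hn
  have h1 := k2_coeff p n
  rw [if_neg hn.ne] at h1
  linear_combination h1

theorem k2_coeff_zero (p : Par) : fourierCoeff (k2 p) 0 = 1 := by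
  have h1 := k2_coeff p 0
  rw [if_pos rfl, k2_mem p (0 - 1) (by norm_num)] at h1
  simpa using h1

/-- `v = β̄ k` satisfies `(w - z) v = 1`. -/
theorem bar_k2_rel (p : Par) :
    (p.w : ℂ) • (blS p).bar.op (k2 p) - zS.op ((blS p).bar.op (k2 p)) = one2 := by
  have h := blS_rel p ((blS p).bar.op (k2 p))
  rw [(blS_unimod p).op_bar_op] at h
  rw [← h, k2_rel]

theorem P_bar_k2 (p : Par) : P ((blS p).bar.op (k2 p)) = 0 := by
  set v := (blS p).bar.op (k2 p) with hv
  have hcoef : ∀ n : ℤ, p.w * fourierCoeff v n - fourierCoeff v (n - 1) =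
      if n = 0 then 1 else 0 := by
    intro n
    have := congrArg (fun g : L2 => fourierCoeff g n) (bar_k2_rel p)
    simpa only [fourierCoeff_sub', fourierCoeff_smul', fourierCoeff_zS, fourierCoeff_one2]
      using this
  have hz : ∀ n ≥ (0 : ℤ), fourierCoeff v n = 0 := by
    apply kill_pos p.nonneg p.lt_one (norm_fourierCoeff_le _)
    intro n hn
    have := hcoef n
    rw [if_neg (by omega)] at this
    linear_combination (-1 : ℂ) * this
  rw [P_eq_zero_iff]
  intro g hg
  have := fourierBasis.tsum_inner_mul_inner v g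
  rw [← this]
  convert tsum_zero with n
  rcases lt_or_ge n 0 with hn | hn
  · have : ⟪(fourierBasis n : L2), g⟫_ℂ = 0 := by
      rw [← HilbertBasis.repr_apply_apply, fourierBasis_repr]; exact hg n hn
    rw [this, mul_zero]
  · have : ⟪(fourierBasis n : L2), v⟫_ℂ = 0 := by
      rw [← HilbertBasis.repr_apply_apply, fourierBasis_repr]; exact hz n hn
    rw [← inner_conj_symm, this, map_zero, zero_mul]

end Pool.Agent.MP_4f6fd6_an
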