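import Mathlib

/-!
# The definitions used in the statement

Toeplitz operators, the operator `(I - T_b T_{b̄})^{1/2}` of de Branges and Rovnyak, and the
infimum of range norms by which the capacities are defined.
-/

open MeasureTheory
open scoped ENNReal

noncomputable section

namespace Pool.Agent.MP_4f6fd6_an

/-- Let `R` be a bounded operator on a Hilbert space `H`. The range of `R` carries the range norm
`‖R g‖ := ‖g‖` for `g` orthogonal to the kernel of `R`. This is the infimum in `[0, ∞]` of the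
squared range norms `‖f‖²` over the `f` in the range of `R` with the property `A`. -/
def infRangeNormSq {H : Type} [NormedAddCommGroup H] [InnerProductSpace ℂ H] (R : H →L[ℂ] H)
    (A : H → Prop) : ℝ≥0∞ :=
  sInf {r | ∃ g ∈ (LinearMap.ker R.toLinearMap)ᗮ, A (R g) ∧ r = ENNReal.ofReal (‖g‖ ^ 2)}

/-- `T` is the Toeplitz operator `T_φ` on the subspace `K` of `L²(μ)`, for `φ ∈ L^∞(μ)`: one has
`⟨T g, h⟩ = ∫ φ g h̄ dμ` for `g, h ∈ K`, that is, `T g` is the orthogonal projection of `φ g` on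
`K`. -/
structure IsToeplitz {α : Type} [MeasurableSpace α] {μ : Measure α} (K : Submodule ℂ (Lp ℂ 2 μ))
    (φ : Lp ℂ ∞ μ) (T : K →L[ℂ] K) : Prop where
  inner_eq : ∀ g h : K, inner ℂ h (T g) =
    ∫ t, φ t * (g : Lp ℂ 2 μ) t * starRingEnd ℂ ((h : Lp ℂ 2 μ) t) ∂μ

/-- `R = (I - T_b T_{b̄})^{1/2}` on the subspace `K` of `L²(μ)`: `R` is positive and
`R² = I - T_b T_{b̄}`. -/
structure IsRootDefect {α : Type} [MeasurableSpace α] {μ : Measure α} (K : Submodule ℂ (Lp ℂ 2 μ))
    (b : Lp ℂ ∞ μ) (R : K →L[ℂ] K) : Prop where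
  isPositive : R.IsPositive
  sq_eq : ∃ T T' : K →L[ℂ] K, IsToeplitz K b T ∧ IsToeplitz K (star b) T' ∧ R * R = 1 - T * T'

/-- The property `q` holds for `|f|` almost everywhere on some open set containing `E`. -/
def AENear {α : Type} [TopologicalSpace α] [MeasurableSpace α] (μ : Measure α) (q : ℝ → Prop)
    (E : Set α) (f : α → ℂ) : Prop :=
  ∃ U : Set α, IsOpen U ∧ E ⊆ U ∧ ∀ᵐ t ∂μ, t ∈ U → q ‖f t‖

end Pool.Agent.MP_4f6fd6_an
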