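import Pool.Agent.Lib.MP_4f6fd6_an.Capacity
import Pool.Agent.Lib.MP_4f6fd6_an.Statement

/-!
# From the working definitions to those of the statement
-/

open MeasureTheory AddCircle Filter
open scoped ENNReal InnerProductSpace Topology

noncomputable section

namespace Pool.Agent.MP_4f6fd6_an

theorem isToeplitz_toeplitz (φ : Linf) : IsToeplitz H2 φ (toeplitz φ) where
  inner_eq := by
    intro g h
    have h1 : ((toeplitz φ g : H2) : L2) = P (mulOp φ g) := rfl
    rw [Submodule.coe_inner, h1, inner_P_of_mem' h.2, L2.inner_def]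
    apply integral_congr_ae
    filter_upwards [coe_mulOp φ g] with t ht
    rw [ht, RCLike.inner_apply]

theorem isRootDefect_defect (b : Sym) : IsRootDefect H2 b.inf (defect b.inf) where
  isPositive := (ContinuousLinearMap.nonneg_iff_isPositive _).1 (opSqrt_nonneg _)
  sq_eq := by
    refine ⟨toeplitz b.inf, toeplitz (star b.inf), isToeplitz_toeplitz _,
      isToeplitz_toeplitz _, ?_⟩
    rw [defect_eq]
    ext1 x
    exact opSqrt_sq (A_nonneg b) x

theorem c₁_eq (b : Linf) (E : Set TT) : c₁ b E = infRangeNormSq (defect b) fun f : H2 =>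
    AENear haarAddCircle (fun x => 1 ≤ x) E (f : Lp ℂ 2 haarAddCircle) := rfl

theorem c₂_eq (b : Linf) (E : Set TT) : c₂ b E = infRangeNormSq (defect b) fun f : H2 =>
    AENear haarAddCircle (fun x => x = 1) E (f : Lp ℂ 2 haarAddCircle) := rfl

end Pool.Agent.MP_4f6fd6_an
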