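import Pool.Agent.Lib.MP_4f6fd6_an.Arcs

/-!
# The two capacities of the arcs
-/

open MeasureTheory AddCircle Filter
open scoped ENNReal InnerProductSpace Topology

noncomputable section

namespace Pool.Agent.MP_4f6fd6_an

/-- A multiple of the kernel cannot have modulus close to one on both parts of the arc. -/
theorem dichotomy {d s : ℝ} (hd : 0 < d) (hs : 0 ≤ s) :
    (∀ k : ℝ, 0 ≤ k → 1 / 5 / d ^ 2 ≤ k ^ 2 → 1 / 10 ≤ |1 - s * k|) ∨
      (∀ k : ℝ, 0 ≤ k → k ^ 2 ≤ 1 / 8 / d ^ 2 → 1 / 10 ≤ |1 - s * k|) := by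
  rcases le_or_gt (5 / 2 * d) s with h | h
  · left
    intro k hk hk2
    have h1 : 1 / 5 ≤ (k * d) ^ 2 := by
      rw [div_le_iff₀ (by positivity)] at hk2
      rw [mul_pow]; exact hk2
    have h2 : 11 / 25 ≤ k * d := by
      by_contra hc
      push Not at hc
      have h3 : 0 ≤ k * d := by positivity
      nlinarith
    have h3 : 11 / 10 ≤ s * k := by nlinarith
    rw [abs_sub_comm, abs_of_nonneg (by linarith)]
    linarith
  · right
    intro k hk hk2
    have h1 : (k * d) ^ 2 ≤ 1 / 8 := by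
      rw [le_div_iff₀ (by positivity)] at hk2
      rw [mul_pow]; exact hk2
    have h2 : k * d ≤ 9 / 25 := by
      by_contra hc
      push Not at hc
      nlinarith
    have h3 : s * k ≤ 9 / 10 := by nlinarith
    rw [abs_of_nonneg (by linarith)]
    linarith

theorem lower_aux {E F : Set TT} (hF : MeasurableSet F) (hFE : F ⊆ E)
    {g : TT → ℝ} (hg : ∀ t, 0 ≤ g t) (hgi : IntegrableOn g E m) {c : ℝ}
    (h : ∀ᵐ t ∂m, t ∈ F → c ≤ g t) : c * m.real F ≤ ∫ t in E, g t ∂m := by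
  have h1 : ∫ t in F, g t ∂m ≤ ∫ t in E, g t ∂m :=
    setIntegral_mono_set hgi (ae_of_all _ hg) hFE.eventuallyLE
  refine le_trans ?_ h1
  have h2 : ∫ _ in F, c ∂m ≤ ∫ t in F, g t ∂m := by
    apply setIntegral_mono_on_ae (integrable_const c).integrableOn (hgi.mono_set hFE) hF h
  rw [setIntegral_const, smul_eq_mul, mul_comm] at h2
  exact h2

theorem lower_c₂ (n : ℕ) (g : H2) (hg : ∀ᵐ t ∂m, t ∈ En n → ‖(defect bS.inf g : L2) t‖ = 1) :
    dd n * 4 ^ n / 26000 ≤ ‖g‖ ^ 2 := by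
  obtain ⟨α, hα⟩ := dist_kernel (cS_anal n) (bS_split n) (isOpen_En n).measurableSet
    (by positivity : (0:ℝ) ≤ 20 * (1 / 4) ^ n) (DefLe_cS n) g
  have hd := dd_pos n
  set f : L2 := ((defect bS.inf g : H2) : L2) with hf
  have hint : Integrable (fun t => ‖f t - α * kf (pn n) t‖ ^ 2) m := by
    have h1 := Sym.integrable_norm_sq (f - α • k2 (pn n))
    refine h1.congr ?_
    filter_upwards [Lp.coeFn_sub f (α • k2 (pn n)), Lp.coeFn_smul α (k2 (pn n)),
      coe_k2 (pn n)] with t h4 h5 h6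
    rw [h4, Pi.sub_apply, h5, Pi.smul_apply, h6, smul_eq_mul]
  have hlow : ∀ t, ‖f t‖ = 1 → 1 / 10 ≤ |1 - ‖α‖ * ‖kf (pn n) t‖| →
      1 / 100 ≤ ‖f t - α * kf (pn n) t‖ ^ 2 := by
    intro t ht h
    have h1 := abs_norm_sub_norm_le (f t) (α * kf (pn n) t)
    rw [ht, norm_mul] at h1
    have h2 : 1 / 10 ≤ ‖f t - α * kf (pn n) t‖ := h.trans h1
    nlinarith
  have hmain : 1 / 100 * (dd n / 13) ≤ ∫ t in En n, ‖f t - α * kf (pn n) t‖ ^ 2 ∂m := by
    rcases dichotomy hd (norm_nonneg α) with h | h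
    · refine le_trans (mul_le_mul_of_nonneg_left (real_An n) (by norm_num)) ?_
      apply lower_aux Metric.isClosed_closedBall.measurableSet
        (An_subset n) (fun t => sq_nonneg _) hint.integrableOn
      filter_upwards [hg] with t ht hA
      exact hlow t (ht (An_subset n hA)) (h _ (norm_nonneg _) (kf_ge_An hA))
    · refine le_trans (mul_le_mul_of_nonneg_left (real_Bn n) (by norm_num)) ?_
      apply lower_aux Metric.isClosed_closedBall.measurableSet
        (Bn_subset n) (fun t => sq_nonneg _) hint.integrableOn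
      filter_upwards [hg] with t ht hA
      exact hlow t (ht (Bn_subset n hA)) (h _ (norm_nonneg _) (kf_le_Bn hA))
  have h3 := hmain.trans hα
  have h4 : (1 / 4 : ℝ) ^ n * 4 ^ n = 1 := by
    rw [← mul_pow]; norm_num
  have h5 : (0:ℝ) < 4 ^ n := by positivity
  have h6 := mul_le_mul_of_nonneg_right h3 h5.le
  have h7 : 20 * (1 / 4 : ℝ) ^ n * ‖g‖ ^ 2 * 4 ^ n = 20 * ‖g‖ ^ 2 := by
    linear_combination (20 * ‖g‖ ^ 2) * h4
  rw [h7] at h6
  linarith

theorem le_c₂ (n : ℕ) : ENNReal.ofReal (dd n * 4 ^ n / 26000) ≤ c₂ bS.inf (En n) := by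
  apply le_sInf
  rintro r ⟨g, -, ⟨U, -, hU, hg⟩, rfl⟩
  apply ENNReal.ofReal_le_ofReal
  apply lower_c₂
  filter_upwards [hg] with t ht h
  exact ht (hU h)

theorem c₁_le (n : ℕ) : c₁ bS.inf (En n) ≤ ENNReal.ofReal (36 * dd n) := by
  have hd := dd_pos n
  have hd1 := dd_le n
  set k : H2 := ⟨k2 (pn n), k2_mem (pn n)⟩ with hk
  have hfix : defect bS.inf k = k := defect_kernel (cS_anal n) (bS_split n)
  set g : H2 := ((6 * dd n : ℝ) : ℂ) • k with hg
  have hfixg : defect bS.inf g = g := by rw [hg, map_smul, hfix]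
  have hnorm : ‖g‖ ^ 2 ≤ 36 * dd n := by
    have h1 : ‖g‖ = 6 * dd n * ‖k2 (pn n)‖ := by
      rw [hg, norm_smul, Complex.norm_real, Real.norm_of_nonneg (by positivity)]; rfl
    have h2 := norm_k2_sq (pn n)
    rw [pn_w] at h2
    rw [h1, mul_pow]
    have h3 : dd n * ‖k2 (pn n)‖ ^ 2 ≤ 1 := by
      have h4 : ‖k2 (pn n)‖ ^ 2 * dd n ≤ ‖k2 (pn n)‖ ^ 2 * (1 - (1 - dd n) ^ 2) := by
        apply mul_le_mul_of_nonneg_left _ (sq_nonneg _)
        nlinarith
      linarith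
    nlinarith
  refine le_trans (sInf_le ?_) (ENNReal.ofReal_le_ofReal hnorm)
  refine ⟨g, mem_orthogonal_ker hfixg, ⟨En n, isOpen_En n, subset_rfl, ?_⟩, rfl⟩
  rw [hfixg]
  have h1 : ((g : H2) : L2) = ((6 * dd n : ℝ) : ℂ) • k2 (pn n) := rfl
  filter_upwards [Lp.coeFn_smul ((6 * dd n : ℝ) : ℂ) (k2 (pn n)), coe_k2 (pn n)] with t h2 h3 ht
  rw [h1, h2, Pi.smul_apply, h3, norm_smul, Complex.norm_real,
    Real.norm_of_nonneg (by positivity)]
  have h4 := kf_ge_En ht
  rw [div_le_iff₀ (by positivity)] at h4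
  have h5 : 1 ^ 2 ≤ (6 * dd n * ‖kf (pn n) t‖) ^ 2 := by
    rw [mul_pow, mul_pow]; linarith
  exact le_of_sq_le_sq h5 (by positivity)

theorem real_En_pos (n : ℕ) : 0 < m.real (En n) := by
  have h := real_An n
  have h1 : m.real (An n) ≤ m.real (En n) := measureReal_mono (An_subset n)
  have := dd_pos n
  linarith [div_pos this (by norm_num : (0:ℝ) < 13)]

theorem c₁_pos (b : Sym) (n : ℕ) : 0 < c₁ b.inf (En n) := by
  have h0 := real_En_pos n
  refine lt_of_lt_of_le (ENNReal.ofReal_pos.2 h0) ?_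
  apply le_sInf
  rintro r ⟨g, -, ⟨U, -, hU, hg⟩, rfl⟩
  apply ENNReal.ofReal_le_ofReal
  have h1 := norm_defect_le b g
  have h2 : ‖defect b.inf g‖ ^ 2 ≤ ‖g‖ ^ 2 := pow_le_pow_left₀ (norm_nonneg _) h1 2
  refine le_trans ?_ h2
  have h3 : ‖defect b.inf g‖ ^ 2 = ∫ t, ‖(defect b.inf g : L2) t‖ ^ 2 ∂m :=
    Sym.norm_sq_eq ((defect b.inf g : H2) : L2)
  rw [h3]
  have h4 := lower_aux (E := Set.univ) (F := En n) (c := 1) (isOpen_En n).measurableSet (Set.subset_univ _)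
    (g := fun t => ‖(defect b.inf g : L2) t‖ ^ 2) (fun t => sq_nonneg _)
    (Sym.integrable_norm_sq _).integrableOn (by
      filter_upwards [hg] with t ht h
      have := ht (hU h)
      nlinarith)
  rw [setIntegral_univ, one_mul] at h4
  exact h4

theorem D_nonneg {φ : Sym} (h : φ.Anal) (ψ : L2) : 0 ≤ D φ ψ := by
  rw [D, ← h.P_bar_P]
  have h1 : ‖P (φ.bar.op (P ψ))‖ ≤ ‖P ψ‖ := (norm_P_le _).trans (Sym.norm_op_le _ _)
  have h2 := pow_le_pow_left₀ (norm_nonneg _) h1 2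
  linarith

theorem norm_defect_sq_eq_D (b : Sym) (x : H2) : ‖defect b.inf x‖ ^ 2 = D b x := by
  rw [norm_defect_sq, D, P_eq_self x.2]

theorem inner_one_le (x : H2) :
    ‖⟪(⟨one2, one2_mem⟩ : H2), x⟫_ℂ‖ ≤ 2 * ‖defect bS.inf x‖ := by
  have h1 : ‖⟪(⟨one2, one2_mem⟩ : H2), x⟫_ℂ‖ ^ 2 ≤ (2 * ‖defect bS.inf x‖) ^ 2 := by
    rw [mul_pow, norm_defect_sq_eq_D]
    have h2 : D bS x = D uS x + D (IS bla_pn Set.univ) (uS.bar.op x) := D_mul _ _ _
    have h3 := D_nonneg (IS_anal bla_pn Set.univ) (uS.bar.op (x : L2))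
    have h4 := D_uS (x : L2)
    have h5 := sq_nonneg ‖P ((x : L2) - zS.bar.op (x : L2))‖
    have h6 : ‖⟪(⟨one2, one2_mem⟩ : H2), x⟫_ℂ‖ = ‖⟪one2, (x : L2)⟫_ℂ‖ := rfl
    rw [h6, h2]
    nlinarith [sq_nonneg ‖⟪one2, (x : L2)⟫_ℂ‖]
  exact le_of_sq_le_sq h1 (by positivity)

theorem c₂_lt_top (E : Set TT) : c₂ bS.inf E < ∞ := by
  obtain ⟨g, hg1, hg2, -⟩ := exists_of_inner_le (defect bS.inf) (inner_defect bS)
    (by norm_num : (0:ℝ) ≤ 2) inner_one_le
  refine lt_of_le_of_lt (sInf_le ⟨g, hg1, ⟨Set.univ, isOpen_univ, Set.subset_univ _, ?_⟩, rfl⟩)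
    ENNReal.ofReal_lt_top
  rw [hg2]
  filter_upwards [coe_one2] with t ht _
  rw [ht]; simp

/-- The ratio of the two capacities of the arcs tends to infinity. -/
theorem tendsto_ratio :
    Tendsto (fun n => c₂ bS.inf (En n) / c₁ bS.inf (En n)) atTop (𝓝 ∞) := by
  have h1 : ∀ n, ENNReal.ofReal (4 ^ n / 936000) ≤ c₂ bS.inf (En n) / c₁ bS.inf (En n) := by
    intro n
    have hd := dd_pos n
    have h2 : ENNReal.ofReal (dd n * 4 ^ n / 26000) / ENNReal.ofReal (36 * dd n) ≤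
        c₂ bS.inf (En n) / c₁ bS.inf (En n) := ENNReal.div_le_div (le_c₂ n) (c₁_le n)
    refine le_trans (le_of_eq ?_) h2
    rw [← ENNReal.ofReal_div_of_pos (by positivity)]
    congr 1
    field_simp
    norm_num
  have h2 : Tendsto (fun n : ℕ => ENNReal.ofReal ((4:ℝ) ^ n / 936000)) atTop (𝓝 ∞) := by
    apply ENNReal.tendsto_ofReal_atTop.comp
    apply Tendsto.atTop_div_const (by norm_num)
    exact tendsto_pow_atTop_atTop_of_one_lt (by norm_num)
  exact tendsto_of_tendsto_of_tendsto_of_le_of_le h2 tendsto_const_nhds h1 (fun n => le_top)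

theorem bS_isHinf : IsHinf bS.inf := by
  intro n hn
  have h1 : bS.op one2 ∈ H2 := (uS_anal.mul (IS_anal bla_pn Set.univ)) _ one2_mem
  rw [← h1 n hn]
  apply integral_congr_ae
  filter_upwards [bS.coe_inf, bS.coe_op one2, coe_one2] with t h2 h3 h4
  rw [h2, h3, h4, mul_one]

theorem norm_bS_ae : ∀ᵐ t ∂m, ‖bS.inf t‖ = ‖(1 + zf t) / 2‖ := by
  filter_upwards [bS.coe_inf, IS_unimod bla_pn Set.univ] with t h1 h2
  rw [h1]
  change ‖uS t * IS bla_pn Set.univ t‖ = _
  rw [norm_mul, h2, mul_one]; rfl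

theorem norm_bS : ‖bS.inf‖ = 1 := by
  apply le_antisymm
  · have h1 : ∀ᵐ t ∂m, ‖bS.inf t‖ ≤ 1 := by
      filter_upwards [bS.coe_inf, bS.bound] with t h1 h2
      rw [h1]; exact h2
    simpa using Lp.norm_le_of_ae_bound zero_le_one h1
  · by_contra hlt
    push Not at hlt
    have h1 : ∀ᵐ t ∂m, ‖bS.inf t‖ ≤ ‖bS.inf‖ := by
      have h2 := ae_le_lpNorm_exponent_top (Lp.memLp bS.inf)
      rw [← toReal_eLpNorm (Lp.aestronglyMeasurable _), ← Lp.norm_def] at h2
      exact h2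
    have hcont : Continuous fun t => ‖(1 + zf t) / 2‖ :=
      ((continuous_const.add continuous_zf).div_const 2).norm
    have hopen : IsOpen {t : TT | ‖bS.inf‖ < ‖(1 + zf t) / 2‖} :=
      isOpen_lt continuous_const hcont
    have hzero : m {t : TT | ‖bS.inf‖ < ‖(1 + zf t) / 2‖} = 0 := by
      have h3 : ∀ᵐ t ∂m, ¬ (‖bS.inf‖ < ‖(1 + zf t) / 2‖) := by
        filter_upwards [h1, norm_bS_ae] with t h4 h5
        rw [← h5]; exact not_lt.2 h4
      rw [ae_iff] at h3
      simpa using h3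
    have hempty := (hopen.measure_eq_zero_iff m).1 hzero
    have h0 : (0 : TT) ∈ {t : TT | ‖bS.inf‖ < ‖(1 + zf t) / 2‖} := by
      have h4 : zf 0 = 1 := by
        rw [zf, fourier_eval_zero]
      change ‖bS.inf‖ < ‖(1 + zf 0) / 2‖
      rw [h4]
      have : ‖((1 : ℂ) + 1) / 2‖ = 1 := by norm_num
      rw [this]; exact hlt
    rw [hempty] at h0
    exact h0

theorem integrable_log_aux : Integrable (fun t : TT => Real.log ‖zf t - 1‖) m := by
  have h1 : CircleIntegrable (fun z => Real.log ‖z - 1‖) 0 1 :=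
    circleIntegrable_log_norm_sub_const 1
  have h2 : IntegrableOn (fun θ : ℝ => Real.log ‖zf (θ : TT) - 1‖) (Set.Ioc 0 (0 + 1)) := by
    have h3 : IntervalIntegrable (fun θ : ℝ => Real.log ‖circleMap 0 1 θ - 1‖) volume 0
      (2 * Real.pi) := h1
    have h4 := h3.comp_mul_left (c := 2 * Real.pi)
    rw [zero_div, div_self Real.two_pi_pos.ne'] at h4
    rw [zero_add]
    refine ((intervalIntegrable_iff_integrableOn_Ioc_of_le zero_le_one).1 h4).congr_fun ?_
      measurableSet_Ioc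
    intro θ _
    change Real.log ‖circleMap 0 1 (2 * Real.pi * θ) - 1‖ = Real.log ‖zf (θ : TT) - 1‖
    have h5 : (θ : TT) = ang (2 * Real.pi * θ) := by
      rw [ang, mul_div_cancel_left₀ _ Real.two_pi_pos.ne']
    rw [h5, zf_ang]
    simp [circleMap]
  have h3 := AddCircle.measurePreserving_mk (1 : ℝ) 0
  have hmeas : Measurable fun t : TT => Real.log ‖zf t - 1‖ :=
    Real.measurable_log.comp (continuous_zf.sub continuous_const).norm.measurable
  have h4 := (h3.integrable_comp (g := fun t : TT => Real.log ‖zf t - 1‖)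
    hmeas.aestronglyMeasurable).1 h2
  rw [AddCircle.volume_eq_smul_haarAddCircle, integrable_smul_measure] at h4
  · exact h4
  · simp
  · exact ENNReal.ofReal_ne_top

theorem integrable_log : Integrable (fun t => Real.log (1 - ‖bS.inf t‖)) m := by
  have h1 : ∀ᵐ t ∂m, Real.log (1 - ‖bS.inf t‖) =
      2 * Real.log ‖zf t - 1‖ - Real.log 4 - Real.log (1 + ‖(1 + zf t) / 2‖) := by
    filter_upwards [norm_bS_ae, ae_zf_ne] with t h2 h3
    rw [h2]
    have h4 : ‖1 + zf t‖ ^ 2 + ‖1 - zf t‖ ^ 2 = 4 := by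
      have := parallelogram_law_with_norm ℂ (1 : ℂ) (zf t)
      rw [norm_zf, norm_one] at this
      nlinarith
    have h5 : ‖(1 + zf t) / 2‖ = ‖1 + zf t‖ / 2 := by rw [norm_div]; simp
    rw [norm_sub_rev (1 : ℂ)] at h4
    have h6 : 0 < ‖zf t - 1‖ := norm_pos_iff.2 (sub_ne_zero.2 h3)
    have h7 : 0 < 1 + ‖(1 + zf t) / 2‖ := by positivity
    have h8 : 1 - ‖(1 + zf t) / 2‖ = ‖zf t - 1‖ ^ 2 / 4 / (1 + ‖(1 + zf t) / 2‖) := by
      rw [eq_div_iff h7.ne', h5]
      linear_combination (-1 / 4 : ℝ) * h4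
    rw [h8, Real.log_div (by positivity) h7.ne', Real.log_div (by positivity) (by norm_num),
      Real.log_pow]
    norm_num
  refine Integrable.congr ?_ (h1.mono fun t ht => ht.symm)
  apply Integrable.sub
  · exact (integrable_log_aux.const_mul 2).sub (integrable_const _)
  · have hcont : Continuous fun t : TT => Real.log (1 + ‖(1 + zf t) / 2‖) := by
      have h2 : Continuous fun t : TT => 1 + ‖(1 + zf t) / 2‖ :=
        continuous_const.add ((continuous_const.add continuous_zf).div_const 2).norm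
      exact h2.log fun t => by positivity
    exact hcont.integrable_of_hasCompactSupport (HasCompactSupport.of_compactSpace _)

end Pool.Agent.MP_4f6fd6_an
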