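import Pool.Agent.Lib.MP_4f6fd6_an.Blaschke

/-!
# The defect functional `‖P ψ‖² - ‖P (φ̄ ψ)‖²`
-/

open MeasureTheory AddCircle Filter
open scoped ENNReal InnerProductSpace Topology

noncomputable section

namespace Pool.Agent.MP_4f6fd6_an

theorem basis_mem_H2 {n : ℤ} (hn : 0 ≤ n) : (fourierBasis n : L2) ∈ H2 := by
  intro k hk
  rw [← fourierBasis_repr, HilbertBasis.repr_apply_apply]
  have := orthonormal_iff_ite.1 (fourierBasis (T := (1 : ℝ))).orthonormal k n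
  rw [this, if_neg (by omega)]

theorem coeff_of_P_eq_zero {v : L2} (hv : P v = 0) {n : ℤ} (hn : 0 ≤ n) :
    fourierCoeff v n = 0 := by
  rw [← fourierBasis_repr, HilbertBasis.repr_apply_apply, ← inner_conj_symm,
    P_eq_zero_iff.1 hv _ (basis_mem_H2 hn), map_zero]

theorem ker_blS (p : Par) {r : L2} (hr : r ∈ H2) (h : P ((blS p).bar.op r) = 0) :
    r = fourierCoeff r 0 • k2 p := by
  set v := (blS p).bar.op r with hv
  have hbv : (blS p).op v = r := (blS_unimod p).op_bar_op r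
  have hrel : ∀ n : ℤ, fourierCoeff r n - p.w * fourierCoeff r (n - 1) =
      p.w * fourierCoeff v n - fourierCoeff v (n - 1) := by
    intro n
    have := blS_coeff p v n
    rwa [hbv] at this
  have hrel' : ∀ n : ℕ, fourierCoeff r ((n : ℤ) + 1) = p.w * fourierCoeff r n := by
    intro n
    have := hrel (n + 1)
    rw [add_sub_cancel_right, coeff_of_P_eq_zero h (by omega),
      coeff_of_P_eq_zero h (by omega)] at this
    linear_combination this
  have hk' : ∀ n : ℕ, fourierCoeff (k2 p) ((n : ℤ) + 1) = p.w * fourierCoeff (k2 p) n := by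
    intro n
    have := k2_coeff p (n + 1)
    rw [add_sub_cancel_right, if_neg (by omega)] at this
    linear_combination this
  apply ext_fourierCoeff
  intro n
  rw [fourierCoeff_smul']
  rcases lt_or_ge n 0 with hn | hn
  · rw [hr n hn, k2_mem p n hn, mul_zero]
  · obtain ⟨k, rfl⟩ := Int.eq_ofNat_of_zero_le hn
    induction k with
    | zero =>
      have := k2_coeff_zero p
      simp only [Nat.cast_zero]
      rw [this, mul_one]
    | succ k ih =>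
      have ih' := ih (by omega)
      push_cast
      rw [hrel', hk', ih']
      ring

/-- `‖P ψ‖² - ‖P (φ̄ ψ)‖²` -/
def D (φ : Sym) (ψ : L2) : ℝ := ‖P ψ‖ ^ 2 - ‖P (φ.bar.op ψ)‖ ^ 2

theorem bar_mul_op (φ χ : Sym) (f : L2) : (φ * χ).bar.op f = χ.bar.op (φ.bar.op f) := by
  rw [← Sym.op_mul]
  congr 1
  apply Sym.op_ext
  filter_upwards with t
  rw [Sym.bar_apply, Sym.mul_apply, Sym.mul_apply, map_mul, mul_comm]
  rfl

theorem D_mul (φ χ : Sym) (ψ : L2) : D (φ * χ) ψ = D φ ψ + D χ (φ.bar.op ψ) := by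
  rw [D, D, D, bar_mul_op]
  ring

/-- The orthogonal decomposition `h = β P(β̄ h) + r` in `H²`. -/
theorem norm_sq_decomp {φ : Sym} (hφ : φ.Unimod) (h : L2) :
    ‖h‖ ^ 2 = ‖h - φ.op (P (φ.bar.op h))‖ ^ 2 + ‖P (φ.bar.op h)‖ ^ 2 := by
  set v := P (φ.bar.op h) with hv
  have hvm : v ∈ H2 := P_mem _
  set r := h - φ.op v with hr
  have hPr : P (φ.bar.op r) = 0 := by
    rw [hr, map_sub, hφ.bar_op_op, map_sub, P_eq_self hvm, ← hv, sub_self]
  have horth : ⟪r, φ.op v⟫_ℂ = 0 := by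
    rw [← Sym.inner_op', ← inner_P_of_mem hvm, hPr, inner_zero_left]
  have : h = r + φ.op v := by rw [hr]; abel
  have h2 : ‖h‖ ^ 2 = ‖r‖ ^ 2 + ‖φ.op v‖ ^ 2 := by
    rw [this, sq, sq, sq]
    exact norm_add_sq_eq_norm_sq_add_norm_sq_of_inner_eq_zero _ _ horth
  rw [h2, hφ.norm_op]

theorem P_bar_rem {φ : Sym} (hφ : φ.Unimod) (h : L2) :
    P (φ.bar.op (h - φ.op (P (φ.bar.op h)))) = 0 := by
  rw [map_sub, hφ.bar_op_op, map_sub, P_eq_self (P_mem _), sub_self]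

/-- for a Blaschke factor, the remainder is the component along the kernel. -/
theorem rem_eq (p : Par) {h : L2} (hh : h ∈ H2) :
    ∃ α : ℂ, h - (blS p).op (P ((blS p).bar.op h)) = α • k2 p ∧
      α * ‖k2 p‖ ^ 2 = ⟪k2 p, h⟫_ℂ := by
  set v := P ((blS p).bar.op h) with hv
  have hvm : v ∈ H2 := P_mem _
  have hrm : h - (blS p).op v ∈ H2 := H2.sub_mem hh (blS_anal p _ hvm)
  have h1 := ker_blS p hrm (P_bar_rem (blS_unimod p) h)
  refine ⟨_, h1, ?_⟩
  have h2 : ⟪k2 p, (blS p).op v⟫_ℂ = 0 := by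
    rw [← Sym.inner_op', ← inner_P_of_mem hvm, P_bar_k2, inner_zero_left]
  have h3 : ⟪k2 p, h⟫_ℂ = ⟪k2 p, h - (blS p).op v⟫_ℂ := by
    rw [inner_sub_right, h2, sub_zero]
  rw [h3, h1, inner_smul_right, inner_self_eq_norm_sq_to_K]
  rw [← h1]; rfl

theorem norm_k2_sq (p : Par) : ‖k2 p‖ ^ 2 * (1 - p.w ^ 2) = 1 := by
  have h0 := k2_rel p
  have h1 : k2 p = one2 + (p.w : ℂ) • zS.op (k2 p) := by rw [← h0]; abel
  have zu : zS.Unimod := by filter_upwards with t; exact norm_zf t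
  have horth : ⟪one2, (p.w : ℂ) • zS.op (k2 p)⟫_ℂ = 0 := by
    rw [inner_smul_right]
    have : ⟪one2, zS.op (k2 p)⟫_ℂ = fourierCoeff (zS.op (k2 p)) 0 := by
      rw [← fourierBasis_repr, HilbertBasis.repr_apply_apply, coe_fourierBasis]; rfl
    rw [this, fourierCoeff_zS, k2_mem p _ (by norm_num), mul_zero]
  have hone : ‖one2‖ = 1 := by
    have := (fourierBasis (T := (1 : ℝ))).orthonormal.1 0
    rwa [coe_fourierBasis] at this
  have h2 : ‖k2 p‖ ^ 2 = ‖one2‖ ^ 2 + ‖(p.w : ℂ) • zS.op (k2 p)‖ ^ 2 := by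
    conv_lhs => rw [h1]
    rw [sq, sq, sq]
    exact norm_add_sq_eq_norm_sq_add_norm_sq_of_inner_eq_zero _ _ horth
  rw [hone, norm_smul, zu.norm_op, Complex.norm_real, Real.norm_eq_abs,
    abs_of_nonneg p.nonneg, mul_pow] at h2
  linarith

/-- the defect of a Blaschke factor. -/
theorem D_blS (p : Par) (ψ : L2) : D (blS p) ψ = ‖⟪k2 p, ψ⟫_ℂ‖ ^ 2 * (1 - p.w ^ 2) := by
  have h1 := norm_sq_decomp (blS_unimod p) (P ψ)
  obtain ⟨α, h2, h3⟩ := rem_eq p (P_mem ψ)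
  rw [h2, (blS_anal p).P_bar_P] at h1
  rw [D, h1, add_sub_cancel_right, norm_smul, mul_pow]
  have h4 : ⟪k2 p, P ψ⟫_ℂ = ⟪k2 p, ψ⟫_ℂ := inner_P_of_mem' (k2_mem p)
  rw [h4] at h3
  have h5 := norm_k2_sq p
  rw [← h3, norm_mul]
  have h6 : ‖((‖k2 p‖ : ℂ)) ^ 2‖ = ‖k2 p‖ ^ 2 := by
    rw [norm_pow]; simp
  rw [h6]
  have : (‖α‖ * ‖k2 p‖ ^ 2) ^ 2 * (1 - p.w ^ 2) =
      ‖α‖ ^ 2 * ‖k2 p‖ ^ 2 * (‖k2 p‖ ^ 2 * (1 - p.w ^ 2)) := by ring
  rw [this, h5, mul_one]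

end Pool.Agent.MP_4f6fd6_an
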