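import Mathlib

/-!
# Definitions: Hardy space, Toeplitz operators, de Branges-Rovnyak spaces and two capacities
-/

open MeasureTheory AddCircle
open scoped ENNReal

noncomputable section

namespace Pool.Agent.MP_4f6fd6_an

/-- The unit circle, identified with `ℝ / ℤ` through `t ↦ exp (2 π i t)`. -/
abbrev TT : Type := AddCircle (1 : ℝ)

/-- Normalised Lebesgue measure on the circle. -/
abbrev m : Measure TT := haarAddCircle

/-- `L²(TT)`. -/
abbrev L2 : Type := Lp ℂ 2 m

/-- `L^∞(TT)`. -/
abbrev Linf : Type := Lp ℂ ∞ m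

/-- The Hardy space `H²`, through boundary values: the functions in `L²(TT)` whose Fourier
coefficients of negative index vanish. -/
def H2 : Submodule ℂ L2 where
  carrier := {f | ∀ n : ℤ, n < 0 → fourierCoeff f n = 0}
  add_mem' := by
    intro f g hf hg n hn
    have hf' := hf n hn
    have hg' := hg n hn
    rw [← fourierBasis_repr] at hf' hg' ⊢
    simp [map_add, hf', hg']
  zero_mem' := by
    intro n _
    rw [← fourierBasis_repr]
    simp
  smul_mem' := by
    intro c f hf n hn
    have hf' := hf n hn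
    rw [← fourierBasis_repr] at hf' ⊢
    simp [map_smul, hf']

theorem mem_H2 {f : L2} : f ∈ H2 ↔ ∀ n : ℤ, n < 0 → fourierCoeff f n = 0 := Iff.rfl

theorem isClosed_H2 : IsClosed (H2 : Set L2) := by
  have : (H2 : Set L2) = ⋂ n : ℤ, ⋂ _ : n < 0, {f : L2 | fourierCoeff f n = 0} := by
    ext f
    simp [mem_H2]
  rw [this]
  refine isClosed_iInter fun n => isClosed_iInter fun _ => ?_
  have hc : Continuous fun f : L2 => (fourierBasis.repr f) n := by
    have : Continuous fun f : L2 => inner ℂ (fourierBasis n : L2) f := by fun_prop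
    simpa [HilbertBasis.repr_apply_apply] using this
  have : {f : L2 | fourierCoeff f n = 0} = {f : L2 | (fourierBasis.repr f) n = 0} := by
    ext f
    simp only [Set.mem_ofPred_eq, fourierBasis_repr]
  rw [this]
  exact isClosed_eq hc continuous_const

instance : CompleteSpace H2 := isClosed_H2.completeSpace_coe

/-- `H^∞`: the bounded functions on the circle whose Fourier coefficients of negative index
vanish. -/
def IsHinf (b : Linf) : Prop := ∀ n : ℤ, n < 0 → fourierCoeff b n = 0

/-- Multiplication by a bounded function, on `L²(TT)`. -/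
def mulOp (φ : Linf) : L2 →L[ℂ] L2 := (ContinuousLinearMap.mul ℂ ℂ).holderL m ∞ 2 2 φ

/-- The Toeplitz operator `T_φ g = P₊(φ g)` on `H²`. -/
def toeplitz (φ : Linf) : H2 →L[ℂ] H2 :=
  H2.orthogonalProjectionOnto ∘L mulOp φ ∘L H2.subtypeL

/-- The positive square root of a bounded operator on a complex Hilbert space (continuous
functional calculus). -/
def opSqrt {H : Type*} [NormedAddCommGroup H] [InnerProductSpace ℂ H] [CompleteSpace H]
    (A : H →L[ℂ] H) : H →L[ℂ] H := CFC.sqrt A

/-- The operator `(I - T_b T_{b̄})^{1/2}` on `H²`. The de Branges-Rovnyak space `H(b)` is its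
range, and the norm of `H(b)` of `(I - T_b T_{b̄})^{1/2} g` is the norm of `g` in `H²` when `g` is
orthogonal to the kernel of `(I - T_b T_{b̄})^{1/2}`. -/
def defect (b : Linf) : H2 →L[ℂ] H2 := opSqrt (1 - toeplitz b * toeplitz (star b))

/-- The set of the squared norms `‖f‖²_{H(b)}` of the `f ∈ H(b)` such that the property `q`
holds for `|f|` almost everywhere on some open set containing `E`. -/
def normsSq (b : Linf) (q : ℝ → Prop) (E : Set TT) : Set ℝ≥0∞ :=
  {r | ∃ g : H2, g ∈ (LinearMap.ker (defect b).toLinearMap)ᗮ ∧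
    (∃ U : Set TT, IsOpen U ∧ E ⊆ U ∧ ∀ᵐ t ∂m, t ∈ U → q ‖(defect b g : L2) t‖) ∧
    r = ENNReal.ofReal (‖g‖ ^ 2)}

/-- The capacity `c_{b,1}(E)`: the infimum of `‖f‖²_{H(b)}` over the `f ∈ H(b)` with `|f| ≥ 1`
almost everywhere on some open set containing `E`. -/
def c₁ (b : Linf) (E : Set TT) : ℝ≥0∞ := sInf (normsSq b (fun x => 1 ≤ x) E)

/-- The capacity `c_{b,2}(E)`: the infimum of `‖f‖²_{H(b)}` over the `f ∈ H(b)` with `|f| = 1`
almost everywhere on some open set containing `E`. -/
def c₂ (b : Linf) (E : Set TT) : ℝ≥0∞ := sInf (normsSq b (fun x => x = 1) E)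

end Pool.Agent.MP_4f6fd6_an
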