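import Pool.Agent.Lib.MP_4f6fd6_an.Product

/-!
# The square root of the defect operator and the duality estimate
-/

open MeasureTheory AddCircle Filter
open scoped ENNReal InnerProductSpace Topology

noncomputable section

namespace Pool.Agent.MP_4f6fd6_an

section Abstract

variable {H : Type*} [NormedAddCommGroup H] [InnerProductSpace ℂ H] [CompleteSpace H]

theorem opSqrt_nonneg (A : H →L[ℂ] H) : 0 ≤ opSqrt A := CFC.sqrt_nonneg A

theorem opSqrt_inner (A : H →L[ℂ] H) (x y : H) : ⟪opSqrt A x, y⟫_ℂ = ⟪x, opSqrt A y⟫_ℂ := by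
  have h : IsSelfAdjoint (opSqrt A) := IsSelfAdjoint.of_nonneg (opSqrt_nonneg A)
  have := ContinuousLinearMap.isSelfAdjoint_iff_isSymmetric.1 h
  exact this x y

theorem opSqrt_sq {A : H →L[ℂ] H} (hA : 0 ≤ A) (x : H) : opSqrt A (opSqrt A x) = A x := by
  have := CFC.sqrt_mul_sqrt_self A hA
  exact congrArg (fun B : H →L[ℂ] H => B x) this

theorem opSqrt_re_nonneg (A : H →L[ℂ] H) (x : H) : 0 ≤ (⟪opSqrt A x, x⟫_ℂ).re := by
  have h := (ContinuousLinearMap.nonneg_iff_isPositive _).1 (opSqrt_nonneg A)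
  exact h.re_inner_nonneg_left x

theorem norm_opSqrt_sq {A : H →L[ℂ] H} (hA : 0 ≤ A) (x : H) :
    ‖opSqrt A x‖ ^ 2 = (⟪A x, x⟫_ℂ).re := by
  rw [← opSqrt_sq hA, opSqrt_inner, inner_self_eq_norm_sq_to_K]
  norm_cast

/-- If `A x = x` then `A^{1/2} x = x`. -/
theorem opSqrt_fix {A : H →L[ℂ] H} (hA : 0 ≤ A) {x : H} (hx : A x = x) : opSqrt A x = x := by
  set y := opSqrt A x - x with hy
  have h1 : opSqrt A y = - y := by
    rw [hy, map_sub, opSqrt_sq hA, hx]; abel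
  have h2 := opSqrt_re_nonneg A y
  rw [h1, inner_neg_left, inner_self_eq_norm_sq_to_K] at h2
  have h3 : ‖y‖ ^ 2 ≤ 0 := by
    have : (-((‖y‖ : ℂ)) ^ 2).re = - ‖y‖ ^ 2 := by norm_cast
    rw [show ((RCLike.ofReal ‖y‖ : ℂ)) = (‖y‖ : ℂ) from rfl, this] at h2
    linarith
  have h4 : ‖y‖ = 0 := by nlinarith [norm_nonneg y]
  have h5 := norm_eq_zero.1 h4
  rw [hy, sub_eq_zero] at h5
  exact h5

/-- A lemma of Douglas type: if `|⟨f, x⟩| ≤ C ‖R x‖` for all `x`, and `R` is symmetric, then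
`f = R g` with `g` orthogonal to the kernel of `R` and `‖g‖ ≤ C`. -/
theorem exists_of_inner_le (R : H →L[ℂ] H) (hR : ∀ x y, ⟪R x, y⟫_ℂ = ⟪x, R y⟫_ℂ) {C : ℝ}
    (hC : 0 ≤ C) {f : H} (hf : ∀ x, ‖⟪f, x⟫_ℂ‖ ≤ C * ‖R x‖) :
    ∃ g : H, g ∈ (LinearMap.ker R.toLinearMap)ᗮ ∧ R g = f ∧ ‖g‖ ≤ C := by
  -- the functional `R x ↦ ⟪f, x⟫` on the range of `R`
  let K : Submodule ℂ H := LinearMap.range R.toLinearMap
  have hwd : ∀ x y : H, R x = R y → ⟪f, x⟫_ℂ = ⟪f, y⟫_ℂ := by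
    intro x y hxy
    have h1 := hf (x - y)
    rw [map_sub, hxy, sub_self, norm_zero, mul_zero, inner_sub_right] at h1
    exact sub_eq_zero.1 (norm_le_zero_iff.1 h1)
  have hex : ∀ v : K, ∃ x : H, R x = v := fun v => v.2
  choose s hs using hex
  let ℓ₀ : K →ₗ[ℂ] ℂ :=
    { toFun := fun v => ⟪f, s v⟫_ℂ
      map_add' := by
        intro v w
        rw [← inner_add_right]
        apply hwd
        rw [map_add, hs, hs, hs]; rfl
      map_smul' := by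
        intro c v
        rw [RingHom.id_apply, smul_eq_mul, ← inner_smul_right]
        apply hwd
        rw [map_smul, hs, hs]; rfl }
  have hb : ∀ v : K, ‖ℓ₀ v‖ ≤ C * ‖v‖ := by
    intro v
    have := hf (s v)
    rw [hs] at this
    exact this
  let ℓ : K →L[ℂ] ℂ := ℓ₀.mkContinuous C hb
  have hℓ : ‖ℓ‖ ≤ C := ℓ₀.mkContinuous_norm_le hC hb
  obtain ⟨L, hL1, hL2⟩ := exists_extension_norm_eq K ℓ
  let g₀ : H := (InnerProductSpace.toDual ℂ H).symm L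
  have hg₀ : ∀ x, ⟪g₀, R x⟫_ℂ = ⟪f, x⟫_ℂ := by
    intro x
    have h1 : ⟪g₀, R x⟫_ℂ = L (R x) := InnerProductSpace.toDual_symm_apply
    rw [h1]
    have h2 : L (R x) = ℓ ⟨R x, ⟨x, rfl⟩⟩ := hL1 ⟨R x, ⟨x, rfl⟩⟩
    rw [h2]
    change ⟪f, s _⟫_ℂ = _
    apply hwd
    rw [hs]
  have hg₀n : ‖g₀‖ ≤ C := by
    rw [LinearIsometryEquiv.norm_map, hL2]; exact hℓ
  -- project on the orthogonal complement of the kernel
  let N : Submodule ℂ H := LinearMap.ker R.toLinearMap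
  have hNc : IsClosed (N : Set H) := R.isClosed_ker
  have : CompleteSpace N := hNc.completeSpace_coe
  let g : H := Nᗮ.starProjection g₀
  have hgm : g ∈ Nᗮ := Submodule.starProjection_apply_mem _ _
  have hdiff : g₀ - g ∈ N := by
    have h1 : g₀ - g ∈ Nᗮᗮ := Submodule.sub_starProjection_mem_orthogonal (K := Nᗮ) g₀
    rwa [Submodule.orthogonal_orthogonal] at h1
  have hRg : R g = R g₀ := by
    have : R (g₀ - g) = 0 := hdiff
    rw [map_sub, sub_eq_zero] at this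
    exact this.symm
  refine ⟨g, hgm, ?_, (Submodule.norm_starProjection_apply_le _ _).trans hg₀n⟩
  rw [hRg]
  apply ext_inner_right ℂ
  intro x
  rw [hR, hg₀]

end Abstract

/-- The defect operator. -/
def A (b : Sym) : H2 →L[ℂ] H2 := 1 - toeplitz b.inf * toeplitz (star b.inf)

theorem A_apply (b : Sym) (x : H2) :
    ((A b x : H2) : L2) = x - P (b.op (P (b.bar.op x))) := by
  have h1 : (A b x : H2) = x - toeplitz b.inf (toeplitz (star b.inf) x) := rfl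
  rw [h1, Submodule.coe_sub, coe_toeplitz, coe_toeplitz_star]

theorem inner_A (b : Sym) (x y : H2) :
    ⟪A b x, y⟫_ℂ = ⟪(x : L2), y⟫_ℂ - ⟪P (b.bar.op x), P (b.bar.op y)⟫_ℂ := by
  have h1 : (A b x : H2) = x - toeplitz b.inf (toeplitz (star b.inf) x) := rfl
  rw [h1, inner_sub_left, inner_toeplitz, Submodule.coe_inner, Submodule.coe_inner,
    coe_toeplitz_star, coe_toeplitz_star]

theorem re_inner_A (b : Sym) (x : H2) :
    (⟪A b x, x⟫_ℂ).re = ‖(x : L2)‖ ^ 2 - ‖P (b.bar.op x)‖ ^ 2 := by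
  rw [inner_A, inner_self_eq_norm_sq_to_K, inner_self_eq_norm_sq_to_K]
  norm_cast

theorem A_nonneg (b : Sym) : 0 ≤ A b := by
  rw [ContinuousLinearMap.nonneg_iff_isPositive]
  constructor
  · intro x y
    change ⟪A b x, y⟫_ℂ = ⟪x, A b y⟫_ℂ
    rw [← inner_conj_symm x, inner_A, inner_A, map_sub, inner_conj_symm, inner_conj_symm]
  · intro x
    rw [ContinuousLinearMap.reApplyInnerSelf_apply]
    change 0 ≤ (⟪A b x, x⟫_ℂ).re
    rw [re_inner_A]
    have h1 : ‖P (b.bar.op x)‖ ≤ ‖(x : L2)‖ := (norm_P_le _).trans (Sym.norm_op_le _ _)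
    have := pow_le_pow_left₀ (norm_nonneg _) h1 2
    linarith

theorem defect_eq (b : Sym) : defect b.inf = opSqrt (A b) := rfl

theorem norm_defect_sq (b : Sym) (x : H2) :
    ‖defect b.inf x‖ ^ 2 = ‖(x : L2)‖ ^ 2 - ‖P (b.bar.op x)‖ ^ 2 := by
  rw [defect_eq, norm_opSqrt_sq (A_nonneg b), re_inner_A]

theorem inner_defect (b : Sym) (x y : H2) :
    ⟪defect b.inf x, y⟫_ℂ = ⟪x, defect b.inf y⟫_ℂ := by
  rw [defect_eq]; exact opSqrt_inner _ _ _

theorem norm_defect_le (b : Sym) (x : H2) : ‖defect b.inf x‖ ≤ ‖x‖ := by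
  have h1 := norm_defect_sq b x
  have h2 : ‖defect b.inf x‖ ^ 2 ≤ ‖x‖ ^ 2 := by
    rw [h1, ← Submodule.coe_norm]
    have := sq_nonneg ‖P (b.bar.op x)‖
    linarith
  exact le_of_sq_le_sq h2 (norm_nonneg _)

/-- The duality estimate. -/
theorem duality {β c b : Sym} (hβ : β.Unimod) (hβa : β.Anal) (hca : c.Anal)
    (hb : (b : TT → ℂ) =ᵐ[m] (β * c)) {E : Set TT} (hE : MeasurableSet E) {η : ℝ} (hη : 0 ≤ η)
    (hD : DefLe c E hE η) (g : H2) :
    ‖(indS E hE).op (β.op (P (β.bar.op ((defect b.inf g : H2) : L2))))‖ ^ 2 ≤ η * ‖g‖ ^ 2 := by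
  set f : L2 := ((defect b.inf g : H2) : L2) with hf
  set u := β.op (P (β.bar.op f)) with hu
  set ψ := (indS E hE).op u with hψ
  have hψs : (indS E hE).op ψ = ψ := indS_idem hE u
  set ψ' := β.bar.op ψ with hψ'
  have hψ's : (indS E hE).op ψ' = ψ' := by rw [hψ', Sym.op_comm, hψs]
  -- the vector `y = β P(β̄ ψ)`
  have hym : β.op (P ψ') ∈ H2 := hβa _ (P_mem _)
  set y : H2 := ⟨β.op (P ψ'), hym⟩ with hy
  have hbar : b.bar.op (y : L2) = c.bar.op (P ψ') := by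
    have h1 : b.bar.op (y : L2) = (β * c).bar.op (y : L2) := by
      congr 1
      apply Sym.op_ext
      filter_upwards [hb] with t ht
      rw [Sym.bar_apply, Sym.bar_apply, ht]
      rfl
    rw [h1, bar_mul_op]
    congr 1
    exact hβ.bar_op_op _
  have hRy : ‖defect b.inf y‖ ^ 2 ≤ η * ‖ψ‖ ^ 2 := by
    rw [norm_defect_sq, hbar, hca.P_bar_P]
    have h1 : ‖(y : L2)‖ = ‖P ψ'‖ := hβ.norm_op _
    rw [h1]
    have h2 := hD ψ' hψ's
    rw [D] at h2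
    have h3 : ‖ψ'‖ = ‖ψ‖ := hβ.bar.norm_op _
    rw [h3] at h2
    exact h2
  have hin : ⟪ψ, u⟫_ℂ = ⟪defect b.inf y, g⟫_ℂ := by
    rw [inner_defect, Submodule.coe_inner, ← hf]
    change ⟪ψ, u⟫_ℂ = ⟪β.op (P ψ'), f⟫_ℂ
    rw [hu, ← Sym.inner_op', ← inner_P_of_mem (P_mem _), ← hψ', Sym.inner_op,
      inner_P_of_mem' (P_mem ψ')]
  have hself : ‖ψ‖ ^ 2 = ‖⟪ψ, u⟫_ℂ‖ := by
    have h1 : ⟪ψ, u⟫_ℂ = ⟪ψ, ψ⟫_ℂ := by
      conv_lhs => rw [← hψs]
      rw [inner_indS]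
    rw [h1, inner_self_eq_norm_sq_to_K, norm_pow]
    simp
  have h4 : ‖ψ‖ ^ 2 ≤ ‖defect b.inf y‖ * ‖g‖ := by
    rw [hself, hin]; exact norm_inner_le_norm (𝕜 := ℂ) (defect b.inf y) g
  have h5 : (‖ψ‖ ^ 2) ^ 2 ≤ (η * ‖ψ‖ ^ 2) * ‖g‖ ^ 2 := by
    have h6 := pow_le_pow_left₀ (sq_nonneg _) h4 2
    rw [mul_pow] at h6
    exact h6.trans (mul_le_mul_of_nonneg_right hRy (sq_nonneg _))
  rcases eq_or_lt_of_le (sq_nonneg ‖ψ‖) with h0 | h0
  · rw [← h0]; positivity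
  · have : ‖ψ‖ ^ 2 * ‖ψ‖ ^ 2 ≤ ‖ψ‖ ^ 2 * (η * ‖g‖ ^ 2) := by nlinarith
    exact le_of_mul_le_mul_left this h0

/-- For a Blaschke factor: the distance to the multiples of the kernel. -/
theorem dist_kernel {p : Par} {c b : Sym} (hca : c.Anal)
    (hb : (b : TT → ℂ) =ᵐ[m] (blS p * c)) {E : Set TT} (hE : MeasurableSet E) {η : ℝ} (hη : 0 ≤ η)
    (hD : DefLe c E hE η) (g : H2) :
    ∃ α : ℂ, ∫ t in E, ‖(defect b.inf g : L2) t - α * kf p t‖ ^ 2 ∂m ≤ η * ‖g‖ ^ 2 := by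
  have h1 := duality (blS_unimod p) (blS_anal p) hca hb hE hη hD g
  obtain ⟨α, h2, -⟩ := rem_eq p (defect b.inf g : H2).2
  refine ⟨α, ?_⟩
  have h3 : (blS p).op (P ((blS p).bar.op ((defect b.inf g : H2) : L2))) =
      ((defect b.inf g : H2) : L2) - α • k2 p := by
    rw [← h2]; abel
  rw [h3, norm_sq_indS] at h1
  refine le_trans (le_of_eq ?_) h1
  apply setIntegral_congr_ae hE
  filter_upwards [Lp.coeFn_sub ((defect b.inf g : H2) : L2) (α • k2 p),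
    Lp.coeFn_smul α (k2 p), coe_k2 p] with t h4 h5 h6 _
  rw [h4, Pi.sub_apply, h5, Pi.smul_apply, h6, smul_eq_mul]

/-- the kernel belongs to `H(b)` with the norm of `H²`. -/
theorem defect_kernel {p : Par} {c b : Sym} (hca : c.Anal)
    (hb : (b : TT → ℂ) =ᵐ[m] (blS p * c)) :
    defect b.inf ⟨k2 p, k2_mem p⟩ = ⟨k2 p, k2_mem p⟩ := by
  rw [defect_eq]
  apply opSqrt_fix (A_nonneg b)
  apply Subtype.ext
  rw [A_apply]
  change k2 p - P (b.op (P (b.bar.op (k2 p)))) = k2 p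
  have h1 : b.bar.op (k2 p) = (blS p * c).bar.op (k2 p) := by
    congr 1
    apply Sym.op_ext
    filter_upwards [hb] with t ht
    rw [Sym.bar_apply, Sym.bar_apply, ht]
    rfl
  rw [h1, bar_mul_op, ← hca.P_bar_P, P_bar_k2, map_zero, map_zero, map_zero, map_zero, sub_zero]

theorem mem_orthogonal_ker {b : Sym} {x : H2} (hx : defect b.inf x = x) :
    x ∈ (LinearMap.ker (defect b.inf).toLinearMap)ᗮ := by
  rw [Submodule.mem_orthogonal]
  intro y hy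
  have hy' : defect b.inf y = 0 := hy
  rw [← hx, ← inner_defect, hy', inner_zero_left]

end Pool.Agent.MP_4f6fd6_an
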