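import Pool.Agent.Lib.MP_4f6fd6_an.Support

/-!
# Infinite Blaschke products
-/

open MeasureTheory AddCircle Filter
open scoped ENNReal InnerProductSpace Topology

noncomputable section

namespace Pool.Agent.MP_4f6fd6_an

theorem tendsto_op {φ : ℕ → Sym} {χ : Sym}
    (h : ∀ᵐ t ∂m, Tendsto (fun n => φ n t) atTop (𝓝 (χ t))) (f : L2) :
    Tendsto (fun n => (φ n).op f) atTop (𝓝 (χ.op f)) := by
  rw [tendsto_iff_norm_sub_tendsto_zero]
  have h2 : Tendsto (fun n => ‖(φ n).op f - χ.op f‖ ^ 2) atTop (𝓝 0) := by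
    have h3 : ∀ n, ‖(φ n).op f - χ.op f‖ ^ 2 = ∫ t, ‖φ n t - χ t‖ ^ 2 * ‖f t‖ ^ 2 ∂m := by
      intro n
      rw [Sym.norm_sq_eq]
      apply integral_congr_ae
      filter_upwards [Lp.coeFn_sub ((φ n).op f) (χ.op f), (φ n).coe_op f, χ.coe_op f]
        with t h1 h2 h3
      rw [h1, Pi.sub_apply, h2, h3, ← sub_mul, norm_mul, mul_pow]
    simp_rw [h3]
    have h4 : (0 : ℝ) = ∫ t, (0 : ℝ) ∂m := by simp
    rw [h4]
    apply tendsto_integral_of_dominated_convergence (fun t => 4 * ‖f t‖ ^ 2)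
    · intro n
      exact (((φ n).meas.sub χ.meas).norm.pow 2).mul
        (Sym.integrable_norm_sq f).aestronglyMeasurable
    · exact (Sym.integrable_norm_sq f).const_mul 4
    · intro n
      filter_upwards [(φ n).bound, χ.bound] with t h1 h2
      have h5 : ‖φ n t - χ t‖ ≤ 2 := (norm_sub_le _ _).trans (by linarith)
      have h6 : ‖φ n t - χ t‖ ^ 2 ≤ 4 := by
        have := pow_le_pow_left₀ (norm_nonneg _) h5 2
        linarith
      rw [Real.norm_of_nonneg (by positivity)]
      exact mul_le_mul_of_nonneg_right h6 (sq_nonneg _)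
    · filter_upwards [h] with t ht
      have : Tendsto (fun n => ‖φ n t - χ t‖) atTop (𝓝 0) :=
        tendsto_iff_norm_sub_tendsto_zero.1 ht
      have := (this.pow 2).mul_const (‖f t‖ ^ 2)
      simpa using this
  have h3 := h2.sqrt
  simpa [Real.sqrt_sq (norm_nonneg _)] using h3

theorem Anal_of_tendsto {φ : ℕ → Sym} {χ : Sym}
    (h : ∀ᵐ t ∂m, Tendsto (fun n => φ n t) atTop (𝓝 (χ t))) (ha : ∀ n, (φ n).Anal) : χ.Anal := by
  intro f hf
  exact isClosed_H2.mem_of_tendsto (tendsto_op h f) (Eventually.of_forall fun n => ha n f hf)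

theorem DefLe_of_tendsto {φ : ℕ → Sym} {χ : Sym}
    (h : ∀ᵐ t ∂m, Tendsto (fun n => φ n t) atTop (𝓝 (χ t))) {E : Set TT} {hE : MeasurableSet E}
    {η : ℝ} (ha : ∀ n, DefLe (φ n) E hE η) : DefLe χ E hE η := by
  intro ψ hψ
  have h1 : ∀ᵐ t ∂m, Tendsto (fun n => (φ n).bar t) atTop (𝓝 (χ.bar t)) := by
    filter_upwards [h] with t ht
    exact (Complex.continuous_conj.tendsto _).comp ht
  have h2 : Tendsto (fun n => D (φ n) ψ) atTop (𝓝 (D χ ψ)) := by
    unfold D
    exact tendsto_const_nhds.sub (((P.continuous.tendsto _).comp (tendsto_op h1 ψ)).norm.pow 2)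
  exact le_of_tendsto' h2 (fun n => ha n ψ hψ)

/-- the unit symbol -/
def oneS : Sym where
  toFun := fun _ => 1
  meas := aestronglyMeasurable_const
  bound := by filter_upwards with t; simp

theorem oneS_op (f : L2) : oneS.op f = f := by
  apply Lp.ext
  filter_upwards [oneS.coe_op f] with t ht
  rw [ht]; change 1 * f t = f t; rw [one_mul]

theorem oneS_anal : oneS.Anal := by
  intro f hf; rw [oneS_op]; exact hf

theorem oneS_unimod : oneS.Unimod := by
  filter_upwards with t; change ‖(1 : ℂ)‖ = 1; simp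

theorem oneS_bar_op (f : L2) : oneS.bar.op f = f := by
  apply Lp.ext
  filter_upwards [oneS.bar.coe_op f] with t ht
  rw [ht, Sym.bar_apply]
  change (starRingEnd ℂ) 1 * f t = f t
  simp

theorem DefLe_oneS {E : Set TT} (hE : MeasurableSet E) : DefLe oneS E hE 0 := by
  intro ψ _
  rw [D, oneS_bar_op]; simp

open Classical in
/-- the factors -/
def fac (p : ℕ → Par) (S : Set ℕ) (j : ℕ) : Sym := if j ∈ S then blS (p j) else oneS

/-- partial products -/
def pp (p : ℕ → Par) (S : Set ℕ) : ℕ → Sym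
  | 0 => oneS
  | N + 1 => pp p S N * fac p S N

theorem pp_apply (p : ℕ → Par) (S : Set ℕ) (N : ℕ) (t : TT) :
    pp p S N t = ∏ j ∈ Finset.range N, fac p S j t := by
  induction N with
  | zero => simp [pp, oneS]
  | succ N ih => rw [Finset.prod_range_succ, ← ih, pp, Sym.mul_apply]

theorem fac_anal (p : ℕ → Par) (S : Set ℕ) (j : ℕ) : (fac p S j).Anal := by
  unfold fac; split_ifs
  · exact blS_anal _
  · exact oneS_anal

theorem pp_anal (p : ℕ → Par) (S : Set ℕ) (N : ℕ) : (pp p S N).Anal := by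
  induction N with
  | zero => exact oneS_anal
  | succ N ih => exact ih.mul (fac_anal p S N)

theorem norm_fac (p : ℕ → Par) (S : Set ℕ) (j : ℕ) (t : TT) : ‖fac p S j t‖ = 1 := by
  unfold fac; split_ifs
  · exact norm_bl _ _
  · change ‖(1 : ℂ)‖ = 1; simp

theorem norm_pp (p : ℕ → Par) (S : Set ℕ) (N : ℕ) (t : TT) : ‖pp p S N t‖ = 1 := by
  rw [pp_apply, norm_prod]
  exact Finset.prod_eq_one fun j _ => norm_fac p S j t

theorem fac_sub_one_le (p : ℕ → Par) (S : Set ℕ) (j : ℕ) (t : TT) (ht : zf t ≠ 1) :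
    ‖fac p S j t - 1‖ ≤ 4 / ‖1 - zf t‖ * (1 - (p j).w) := by
  have hpos : 0 < ‖1 - zf t‖ := norm_pos_iff.2 (sub_ne_zero.2 ht.symm)
  have hw := (p j).lt_one
  unfold fac; split_ifs
  · change ‖bl (p j) t - 1‖ ≤ _
    have h1 : bl (p j) t - 1 = - ((1 - ((p j).w : ℂ)) * (1 + zf t)) / (1 - (p j).w * zf t) := by
      rw [bl, div_sub_one ((p j).one_sub_ne t)]
      congr 1; ring
    rw [h1, norm_div, norm_neg, norm_mul]
    have h2 : ‖1 - ((p j).w : ℂ)‖ = 1 - (p j).w := by
      rw [← Complex.ofReal_one, ← Complex.ofReal_sub, Complex.norm_real, Real.norm_of_nonneg]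
      linarith
    have h3 : ‖1 + zf t‖ ≤ 2 := by
      refine (norm_add_le _ _).trans ?_
      rw [norm_zf, norm_one]; norm_num
    have h4 : ‖1 - zf t‖ ≤ 2 * ‖1 - ((p j).w : ℂ) * zf t‖ := by
      have h5 : 1 - zf t = (1 - ((p j).w : ℂ) * zf t) - (1 - ((p j).w : ℂ)) * zf t := by ring
      have h6 := norm_sub_le (1 - ((p j).w : ℂ) * zf t) ((1 - ((p j).w : ℂ)) * zf t)
      rw [← h5, norm_mul, h2, norm_zf, mul_one] at h6
      have h7 := (p j).le_norm t
      linarith
    rw [h2]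
    have h8 : 0 < ‖1 - ((p j).w : ℂ) * zf t‖ := by linarith
    rw [div_mul_eq_mul_div, div_le_div_iff₀ h8 hpos]
    nlinarith [mul_le_mul h3 h4 hpos.le (by norm_num : (0:ℝ) ≤ 2)]
  · change ‖(1 : ℂ) - 1‖ ≤ _
    rw [sub_self, norm_zero]
    have : 0 ≤ 1 - (p j).w := by linarith
    positivity

/-- A sequence of parameters with `∑ (1 - w_j) < ∞`. -/
def Bla (p : ℕ → Par) : Prop := Summable fun j => 1 - (p j).w

theorem tendsto_pp {p : ℕ → Par} (hp : Bla p) (S : Set ℕ) {t : TT} (ht : zf t ≠ 1) :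
    Tendsto (fun N => pp p S N t) atTop (𝓝 (∏' j, fac p S j t)) := by
  have h1 : Multipliable fun j => (1 + (fac p S j t - 1)) := by
    apply multipliable_one_add_of_summable
    apply Summable.of_nonneg_of_le (fun j => norm_nonneg _) (fun j => fac_sub_one_le p S j t ht)
    exact hp.mul_left _
  simp only [add_sub_cancel] at h1
  have h2 := h1.hasProd.tendsto_prod_nat
  simp_rw [pp_apply]
  exact h2

theorem ae_zf_ne : ∀ᵐ t ∂m, zf t ≠ 1 := by
  have h0 : {t : TT | ¬ zf t ≠ 1} ⊆ {0} := by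
    intro t ht
    have ht' : zf t = 1 := not_not.1 ht
    rw [zf, fourier_one] at ht'
    have h1 : AddCircle.toCircle t = 1 := Circle.ext ht'
    rw [← AddCircle.toCircle_zero (T := (1 : ℝ))] at h1
    exact AddCircle.injective_toCircle (by positivity) h1
  have h1 : m ({0} : Set TT) = 0 := by
    have h2 : (volume : Measure TT) {0} = 0 := by
      have := AddCircle.volume_closedBall (T := (1 : ℝ)) (x := 0) 0
      rw [Metric.closedBall_zero] at this
      rw [this]
      simp
    have h3 := AddCircle.volume_eq_smul_haarAddCircle (T := (1 : ℝ))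
    rw [h3, Measure.smul_apply, smul_eq_mul, mul_eq_zero] at h2
    rcases h2 with h2 | h2
    · exfalso
      have : 0 < ENNReal.ofReal 1 := ENNReal.ofReal_pos.2 one_pos
      exact this.ne' h2
    · exact h2
  rw [ae_iff]
  exact measure_mono_null h0 h1

/-- The infinite Blaschke product over `S`. -/
def IS {p : ℕ → Par} (hp : Bla p) (S : Set ℕ) : Sym where
  toFun := fun t => ∏' j, fac p S j t
  meas := by
    apply aestronglyMeasurable_of_tendsto_ae atTop (f := fun N => (pp p S N).toFun)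
      (fun N => (pp p S N).meas)
    filter_upwards [ae_zf_ne] with t ht
    exact tendsto_pp hp S ht
  bound := by
    filter_upwards [ae_zf_ne] with t ht
    apply le_of_tendsto' (tendsto_pp hp S ht).norm
    intro N; rw [norm_pp]

theorem ae_tendsto_pp {p : ℕ → Par} (hp : Bla p) (S : Set ℕ) :
    ∀ᵐ t ∂m, Tendsto (fun N => pp p S N t) atTop (𝓝 (IS hp S t)) := by
  filter_upwards [ae_zf_ne] with t ht
  exact tendsto_pp hp S ht

theorem IS_unimod {p : ℕ → Par} (hp : Bla p) (S : Set ℕ) : (IS hp S).Unimod := by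
  filter_upwards [ae_tendsto_pp hp S] with t ht
  have h1 := ht.norm
  simp_rw [norm_pp] at h1
  exact tendsto_nhds_unique h1 tendsto_const_nhds

theorem IS_anal {p : ℕ → Par} (hp : Bla p) (S : Set ℕ) : (IS hp S).Anal :=
  Anal_of_tendsto (ae_tendsto_pp hp S) (pp_anal p S)

theorem IS_split {p : ℕ → Par} (hp : Bla p) (n : ℕ) :
    (IS hp Set.univ : TT → ℂ) =ᵐ[m] (blS (p n) * IS hp {n}ᶜ) := by
  filter_upwards [ae_tendsto_pp hp Set.univ, ae_tendsto_pp hp {n}ᶜ] with t h1 h2
  have h3 : ∀ᶠ N in atTop, pp p Set.univ N t = bl (p n) t * pp p {n}ᶜ N t := by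
    filter_upwards [eventually_gt_atTop n] with N hN
    rw [pp_apply, pp_apply]
    have hmem : n ∈ Finset.range N := Finset.mem_range.2 hN
    rw [← Finset.mul_prod_erase _ _ hmem, ← Finset.mul_prod_erase _ (fun j => fac p {n}ᶜ j t) hmem]
    have h4 : fac p Set.univ n t = bl (p n) t := by
      unfold fac; rw [if_pos (Set.mem_univ _)]; rfl
    have h5 : fac p {n}ᶜ n t = 1 := by
      unfold fac; rw [if_neg (by simp)]; rfl
    rw [h4, h5, one_mul]
    congr 1
    apply Finset.prod_congr rfl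
    intro j hj
    have hj' : j ≠ n := Finset.ne_of_mem_erase hj
    unfold fac
    rw [if_pos (Set.mem_univ _), if_pos (by simpa using hj')]
  have h4 : Tendsto (fun N => bl (p n) t * pp p {n}ᶜ N t) atTop (𝓝 (bl (p n) t * IS hp {n}ᶜ t)) :=
    h2.const_mul _
  have h5 := tendsto_nhds_unique (h1.congr' h3) h4
  rw [h5]; rfl

/-- The defect estimate for the product. -/
theorem DefLe_IS {p : ℕ → Par} (hp : Bla p) (S : Set ℕ) {E : Set TT} (hE : MeasurableSet E)
    {η : ℕ → ℝ} (hη : ∀ j, 0 ≤ η j) (hs : Summable η)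
    (h : ∀ j ∈ S, DefLe (blS (p j)) E hE (η j)) : DefLe (IS hp S) E hE (∑' j, η j) := by
  apply DefLe_of_tendsto (ae_tendsto_pp hp S)
  have h1 : ∀ N, DefLe (pp p S N) E hE (∑ j ∈ Finset.range N, η j) := by
    intro N
    induction N with
    | zero => simpa [pp] using DefLe_oneS hE
    | succ N ih =>
      rw [Finset.sum_range_succ]
      apply ih.mul _ (hη N)
      unfold fac; split_ifs with hN
      · exact h N hN
      · intro ψ hψ
        have h2 := DefLe_oneS hE ψ hψ
        have h3 : 0 ≤ η N * ‖ψ‖ ^ 2 := mul_nonneg (hη N) (sq_nonneg _)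
        linarith
  intro N ψ hψ
  refine (h1 N ψ hψ).trans ?_
  apply mul_le_mul_of_nonneg_right _ (sq_nonneg _)
  exact hs.sum_le_tsum _ (fun j _ => hη j)

end Pool.Agent.MP_4f6fd6_an
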