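import Pool.Agent.Lib.MP_4f6fd6_an.Defect

/-!
# Estimates of the defect for functions supported in a set `E`
-/

open MeasureTheory AddCircle Filter
open scoped ENNReal InnerProductSpace Topology

noncomputable section

namespace Pool.Agent.MP_4f6fd6_an

/-- the indicator symbol -/
def indS (E : Set TT) (hE : MeasurableSet E) : Sym where
  toFun := E.indicator 1
  meas := (measurable_one.indicator hE).aestronglyMeasurable
  bound := by
    filter_upwards with t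
    by_cases h : t ∈ E <;> simp [h]

theorem indS_apply {E : Set TT} (hE : MeasurableSet E) (t : TT) :
    (indS E hE) t = E.indicator 1 t := rfl

theorem inner_indS {E : Set TT} (hE : MeasurableSet E) (f g : L2) :
    ⟪(indS E hE).op f, g⟫_ℂ = ⟪f, (indS E hE).op g⟫_ℂ := by
  rw [Sym.inner_op]
  congr 2
  apply Sym.op_ext
  filter_upwards with t
  rw [Sym.bar_apply, indS_apply]
  by_cases h : t ∈ E <;> simp [h]

theorem indS_idem {E : Set TT} (hE : MeasurableSet E) (f : L2) :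
    (indS E hE).op ((indS E hE).op f) = (indS E hE).op f := by
  rw [← Sym.op_mul]
  congr 1
  apply Sym.op_ext
  filter_upwards with t
  rw [Sym.mul_apply, indS_apply]
  by_cases h : t ∈ E <;> simp [h]

theorem norm_sq_indS {E : Set TT} (hE : MeasurableSet E) (f : L2) :
    ‖(indS E hE).op f‖ ^ 2 = ∫ t in E, ‖f t‖ ^ 2 ∂m := by
  rw [Sym.norm_sq_eq, ← integral_indicator hE]
  apply integral_congr_ae
  filter_upwards [(indS E hE).coe_op f] with t ht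
  rw [ht, indS_apply]
  by_cases h : t ∈ E <;> simp [h]

theorem norm_sq_indS_le {E : Set TT} (hE : MeasurableSet E) (f : L2) {C : ℝ}
    (h : ∀ᵐ t ∂m, t ∈ E → ‖f t‖ ^ 2 ≤ C) :
    ‖(indS E hE).op f‖ ^ 2 ≤ C * m.real E := by
  rw [norm_sq_indS]
  have h1 : ∫ t in E, ‖f t‖ ^ 2 ∂m ≤ ∫ _ in E, C ∂m := by
    apply setIntegral_mono_on_ae (Sym.integrable_norm_sq f).integrableOn
      (integrable_const C).integrableOn hE
    filter_upwards [h] with t ht using ht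
  refine h1.trans ?_
  rw [setIntegral_const, smul_eq_mul, mul_comm]

/-- The bound `‖P ψ‖² - ‖P (φ̄ ψ)‖² ≤ η ‖ψ‖²` for all `ψ` supported in `E`. -/
def DefLe (φ : Sym) (E : Set TT) (hE : MeasurableSet E) (η : ℝ) : Prop :=
  ∀ ψ : L2, (indS E hE).op ψ = ψ → D φ ψ ≤ η * ‖ψ‖ ^ 2

theorem DefLe.mul {φ χ : Sym} {E : Set TT} {hE : MeasurableSet E} {η₁ η₂ : ℝ}
    (h1 : DefLe φ E hE η₁) (h2 : DefLe χ E hE η₂) (hη : 0 ≤ η₂) :
    DefLe (φ * χ) E hE (η₁ + η₂) := by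
  intro ψ hψ
  rw [D_mul]
  have h3 : (indS E hE).op (φ.bar.op ψ) = φ.bar.op ψ := by
    rw [Sym.op_comm, hψ]
  have h4 := h2 _ h3
  have h5 : ‖φ.bar.op ψ‖ ^ 2 ≤ ‖ψ‖ ^ 2 :=
    pow_le_pow_left₀ (norm_nonneg _) (Sym.norm_op_le _ _) 2
  have h6 := h1 ψ hψ
  have h7 : η₂ * ‖φ.bar.op ψ‖ ^ 2 ≤ η₂ * ‖ψ‖ ^ 2 := mul_le_mul_of_nonneg_left h5 hη
  rw [add_mul]
  linarith

theorem inner_supp_le {E : Set TT} (hE : MeasurableSet E) {ψ k : L2}
    (hψ : (indS E hE).op ψ = ψ) {C : ℝ} (hC : ∀ᵐ t ∂m, t ∈ E → ‖k t‖ ^ 2 ≤ C) :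
    ‖⟪k, ψ⟫_ℂ‖ ^ 2 ≤ C * m.real E * ‖ψ‖ ^ 2 := by
  rw [← hψ, ← inner_indS]
  have h1 : ‖⟪(indS E hE).op k, ψ⟫_ℂ‖ ^ 2 ≤ (‖(indS E hE).op k‖ * ‖ψ‖) ^ 2 :=
    pow_le_pow_left₀ (norm_nonneg _) (norm_inner_le_norm _ _) 2
  refine h1.trans ?_
  rw [mul_pow, hψ]
  exact mul_le_mul_of_nonneg_right (norm_sq_indS_le hE k hC) (sq_nonneg _)

theorem DefLe_blS (p : Par) {E : Set TT} (hE : MeasurableSet E) {C : ℝ}
    (hC : ∀ t ∈ E, ‖kf p t‖ ^ 2 ≤ C) :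
    DefLe (blS p) E hE (C * m.real E * (1 - p.w ^ 2)) := by
  intro ψ hψ
  rw [D_blS]
  have h1 : ‖⟪k2 p, ψ⟫_ℂ‖ ^ 2 ≤ C * m.real E * ‖ψ‖ ^ 2 := by
    apply inner_supp_le hE hψ
    filter_upwards [coe_k2 p] with t ht h
    rw [ht]; exact hC t h
  have h2 : 0 ≤ 1 - p.w ^ 2 := by nlinarith [p.nonneg, p.lt_one]
  calc ‖⟪k2 p, ψ⟫_ℂ‖ ^ 2 * (1 - p.w ^ 2) ≤ (C * m.real E * ‖ψ‖ ^ 2) * (1 - p.w ^ 2) :=
        mul_le_mul_of_nonneg_right h1 h2
    _ = _ := by ring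

/-- the symbol `(1+z)/2`. -/
def uS : Sym where
  toFun := fun t => (1 + zf t) / 2
  meas := ((continuous_const.add continuous_zf).div_const 2).aestronglyMeasurable
  bound := by
    filter_upwards with t
    rw [norm_div]
    have h1 : ‖1 + zf t‖ ≤ 2 := by
      refine (norm_add_le _ _).trans ?_
      rw [norm_zf, norm_one]; norm_num
    have h2 : ‖(2 : ℂ)‖ = 2 := by simp
    rw [h2]; linarith

/-- the zero parameter -/
def par0 : Par := ⟨0, le_refl _, one_pos⟩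

theorem k2_par0 : k2 par0 = one2 := by
  have := k2_rel par0
  simpa [par0] using this

theorem bl_par0 (t : TT) : bl par0 t = - zf t := by
  simp [bl, par0]

theorem D_zS (ψ : L2) : D zS ψ = ‖⟪one2, ψ⟫_ℂ‖ ^ 2 := by
  have h := D_blS par0 ψ
  rw [k2_par0] at h
  have h2 : (blS par0).bar.op ψ = - zS.bar.op ψ := by
    apply Lp.ext
    filter_upwards [(blS par0).bar.coe_op ψ, Lp.coeFn_neg (zS.bar.op ψ), zS.bar.coe_op ψ]
      with t h1 h2 h3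
    rw [h1, h2, Pi.neg_apply, h3, Sym.bar_apply, Sym.bar_apply]
    change (starRingEnd ℂ) (bl par0 t) * ψ t = - ((starRingEnd ℂ) (zf t) * ψ t)
    rw [bl_par0]; simp
  have h3 : D zS ψ = D (blS par0) ψ := by
    rw [D, D, h2, map_neg, norm_neg]
  rw [h3, h]
  simp [par0]

theorem D_uS (ψ : L2) : D uS ψ = (1/2) * ‖⟪one2, ψ⟫_ℂ‖ ^ 2 + (1/4) * ‖P (ψ - zS.bar.op ψ)‖ ^ 2 := by
  have h1 : uS.bar.op ψ = (1/2 : ℂ) • (ψ + zS.bar.op ψ) := by
    apply Lp.ext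
    filter_upwards [uS.bar.coe_op ψ, Lp.coeFn_smul (1/2 : ℂ) (ψ + zS.bar.op ψ),
      Lp.coeFn_add ψ (zS.bar.op ψ), zS.bar.coe_op ψ] with t h1 h2 h3 h4
    rw [h1, h2, Pi.smul_apply, h3, Pi.add_apply, h4, Sym.bar_apply, Sym.bar_apply]
    change (starRingEnd ℂ) ((1 + zf t) / 2) * ψ t = (1/2 : ℂ) • (ψ t + (starRingEnd ℂ) (zf t) * ψ t)
    simp only [map_div₀, map_add, map_one, smul_eq_mul, Complex.conj_ofNat]
    ring
  have hz := D_zS ψ
  rw [D] at hz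
  rw [D, h1, map_smul, map_add, map_sub, ← hz, norm_smul]
  have h2 := parallelogram_law_with_norm ℂ (P ψ) (P (zS.bar.op ψ))
  have h3 : ‖(1/2 : ℂ)‖ = 1/2 := by simp
  rw [h3]
  linear_combination (-1/4 : ℝ) * h2

theorem DefLe_uS {E : Set TT} (hE : MeasurableSet E) {δ : ℝ}
    (hC : ∀ t ∈ E, ‖1 - zf t‖ ≤ δ) :
    DefLe uS E hE (m.real E / 2 + δ ^ 2 / 4) := by
  intro ψ hψ
  rw [D_uS]
  have h1 : ‖⟪one2, ψ⟫_ℂ‖ ^ 2 ≤ 1 * m.real E * ‖ψ‖ ^ 2 := by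
    apply inner_supp_le hE hψ
    filter_upwards [coe_one2] with t ht _
    rw [ht]; simp
  have h2 : ‖ψ - zS.bar.op ψ‖ ≤ δ * ‖ψ‖ := by
    apply Lp.norm_le_mul_norm_of_ae_le_mul
    filter_upwards [Lp.coeFn_sub ψ (zS.bar.op ψ), zS.bar.coe_op ψ, (indS E hE).coe_op ψ]
      with t h1 h2 h3
    rw [h1, Pi.sub_apply, h2, Sym.bar_apply]
    rw [hψ, indS_apply] at h3
    by_cases h : t ∈ E
    · have h4 : ψ t - (starRingEnd ℂ) (zS t) * ψ t = (starRingEnd ℂ) (1 - zf t) * ψ t := by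
        change ψ t - (starRingEnd ℂ) (zf t) * ψ t = _
        simp; ring
      rw [h4, norm_mul, Complex.norm_conj]
      exact mul_le_mul_of_nonneg_right (hC t h) (norm_nonneg _)
    · have h5 : ψ t = 0 := by rw [h3]; simp [h]
      rw [h5]; simp
  have h3 : ‖P (ψ - zS.bar.op ψ)‖ ^ 2 ≤ (δ * ‖ψ‖) ^ 2 :=
    pow_le_pow_left₀ (norm_nonneg _) ((norm_P_le _).trans h2) 2
  nlinarith [h1, h3]

theorem uS_anal : uS.Anal := by
  intro f hf
  have h1 : uS.op f = (1/2 : ℂ) • (f + zS.op f) := by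
    apply Lp.ext
    filter_upwards [uS.coe_op f, Lp.coeFn_smul (1/2 : ℂ) (f + zS.op f),
      Lp.coeFn_add f (zS.op f), zS.coe_op f] with t h1 h2 h3 h4
    rw [h1, h2, Pi.smul_apply, h3, Pi.add_apply, h4]
    change (1 + zf t) / 2 * f t = (1/2 : ℂ) • (f t + zf t * f t)
    simp only [smul_eq_mul]
    ring
  rw [h1]
  exact H2.smul_mem _ (H2.add_mem hf (zS_anal f hf))

end Pool.Agent.MP_4f6fd6_an
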